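import Pool.Agent.V5helper94.MT.Every

/-!
# Translations between indexings
-/

set_option autoImplicit false
set_option linter.unusedSectionVars false

namespace Pool.Agent.V5helper94.MT

open Matrix Polynomial Module
open Pool.Agent.R932.EV (SS SC)
open Pool.Agent.Y95.MT
open Pool.Agent.W544.PG (HS BD bl mC)

section
variable {F Γ ι : Type} [Field F] [Group Γ] [Fintype ι] [DecidableEq ι] {m : ℕ} (e : Fin m ≃ ι)
  {M : Γ → Matrix ι ι F} {ρ : Γ →* Matrix (Fin m) (Fin m) F}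

theorem mulVec_tr (σ : Γ) (h : ρ σ = (M σ).submatrix e e) (w : ι → F) :
    ρ σ *ᵥ (w ∘ e) = (M σ *ᵥ w) ∘ e := by
  rw [h]
  funext a
  rw [Matrix.mulVec, dotProduct, Function.comp_apply, Matrix.mulVec, dotProduct]
  exact Equiv.sum_comp e (fun b => M σ (e a) b * w b)

theorem ss_tr (h : ∀ σ, ρ σ = (M σ).submatrix e e) (hss : SS ρ) (W : Submodule F (ι → F))
    (hW : ∀ σ, ∀ w ∈ W, M σ *ᵥ w ∈ W) :
    ∃ W' : Submodule F (ι → F), IsCompl W W' ∧ ∀ σ, ∀ w ∈ W', M σ *ᵥ w ∈ W' := by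
  let E : (ι → F) ≃ₗ[F] (Fin m → F) := LinearEquiv.funCongrLeft F F e
  have hE : ∀ w, E w = w ∘ e := fun w => rfl
  obtain ⟨W₁, h1, h2⟩ := hss (W.map (E : (ι → F) →ₗ[F] (Fin m → F))) (by
    rintro σ _ ⟨w, hw, rfl⟩
    refine ⟨M σ *ᵥ w, hW σ w hw, ?_⟩
    show E (M σ *ᵥ w) = ρ σ *ᵥ E w
    rw [hE, hE, mulVec_tr e σ (h σ)])
  refine ⟨W₁.comap (E : (ι → F) →ₗ[F] (Fin m → F)), ?_, ?_⟩
  · have h3 : W = (W.map (E : (ι → F) →ₗ[F] (Fin m → F))).comap
        (E : (ι → F) →ₗ[F] (Fin m → F)) := by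
      rw [Submodule.comap_map_eq_of_injective E.injective]
    rw [h3]
    constructor
    · rw [disjoint_iff, ← Submodule.comap_inf, h1.inf_eq_bot, Submodule.comap_bot]
      exact LinearEquiv.ker E
    · rw [codisjoint_iff]
      rw [eq_top_iff]
      intro x _
      have h4 : E x ∈ W.map (E : (ι → F) →ₗ[F] (Fin m → F)) ⊔ W₁ := by
        rw [h1.sup_eq_top]
        trivial
      obtain ⟨y, hy, z, hz, hyz⟩ := Submodule.mem_sup.1 h4
      have h5 : x = E.symm y + E.symm z := by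
        rw [← map_add, hyz, LinearEquiv.symm_apply_apply]
      rw [h5]
      refine Submodule.add_mem_sup ?_ ?_
      · show E (E.symm y) ∈ W.map (E : (ι → F) →ₗ[F] (Fin m → F))
        rw [LinearEquiv.apply_symm_apply]
        exact hy
      · show E (E.symm z) ∈ W₁
        rw [LinearEquiv.apply_symm_apply]
        exact hz
  · intro σ w hw
    show E (M σ *ᵥ w) ∈ W₁
    rw [hE, ← mulVec_tr e σ (h σ)]
    exact h2 σ _ hw

theorem ss_rt (h : ∀ σ, ρ σ = (M σ).submatrix e e)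
    (hss : ∀ W : Submodule F (ι → F), (∀ σ, ∀ w ∈ W, M σ *ᵥ w ∈ W) →
      ∃ W' : Submodule F (ι → F), IsCompl W W' ∧ ∀ σ, ∀ w ∈ W', M σ *ᵥ w ∈ W') : SS ρ := by
  let E : (ι → F) ≃ₗ[F] (Fin m → F) := LinearEquiv.funCongrLeft F F e
  have hE : ∀ w, E w = w ∘ e := fun w => rfl
  intro U hU
  obtain ⟨W', h1, h2⟩ := hss (U.comap (E : (ι → F) →ₗ[F] (Fin m → F))) (by
    intro σ w hw
    show E (M σ *ᵥ w) ∈ U
    rw [hE, ← mulVec_tr e σ (h σ)]
    exact hU σ _ hw)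
  refine ⟨W'.map (E : (ι → F) →ₗ[F] (Fin m → F)), ?_, ?_⟩
  · constructor
    · rw [Submodule.disjoint_def]
      rintro _ hx ⟨w, hw, rfl⟩
      have h3 : w ∈ U.comap (E : (ι → F) →ₗ[F] (Fin m → F)) ⊓ W' := ⟨hx, hw⟩
      rw [h1.inf_eq_bot, Submodule.mem_bot] at h3
      rw [h3, map_zero]
    · rw [codisjoint_iff, eq_top_iff]
      intro x _
      have h4 : E.symm x ∈ U.comap (E : (ι → F) →ₗ[F] (Fin m → F)) ⊔ W' := by
        rw [h1.sup_eq_top]
        trivial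
      obtain ⟨y, hy, z, hz, hyz⟩ := Submodule.mem_sup.1 h4
      have h5 : x = E y + E z := by
        rw [← map_add, hyz, LinearEquiv.apply_symm_apply]
      rw [h5]
      exact Submodule.add_mem_sup hy ⟨z, hz, rfl⟩
  · rintro σ _ ⟨w, hw, rfl⟩
    refine ⟨M σ *ᵥ w, h2 σ w hw, ?_⟩
    show E (M σ *ᵥ w) = ρ σ *ᵥ E w
    rw [hE, hE, mulVec_tr e σ (h σ)]

theorem sc_tr [TopologicalSpace Γ] (h : ∀ σ, ρ σ = (M σ).submatrix e e) :
    SC ρ ↔ ∀ (A : Matrix ι ι F) (U : Subgroup Γ), IsOpen (U : Set Γ) →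
      (∀ σ ∈ U, A * M σ = M σ * A) → ∃ z : F, A = z • (1 : Matrix ι ι F) := by
  constructor
  · intro hsc A U hU hA
    obtain ⟨z, hz⟩ := hsc (A.submatrix e e) U hU (by
      intro σ hσ
      rw [h, Matrix.submatrix_mul_equiv, Matrix.submatrix_mul_equiv, hA σ hσ])
    refine ⟨z, ?_⟩
    ext a b
    have h1 := congrFun (congrFun hz (e.symm a)) (e.symm b)
    rw [Matrix.submatrix_apply, Equiv.apply_symm_apply, Equiv.apply_symm_apply,
      Matrix.smul_apply] at h1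
    rw [h1, Matrix.smul_apply, Matrix.one_apply, Matrix.one_apply]
    simp only [EmbeddingLike.apply_eq_iff_eq]
  · intro hsc A U hU hA
    obtain ⟨z, hz⟩ := hsc (A.submatrix e.symm e.symm) U hU (by
      intro σ hσ
      have h1 : M σ = (ρ σ).submatrix e.symm e.symm := by
        rw [h, Matrix.submatrix_submatrix, Equiv.self_comp_symm, Matrix.submatrix_id_id]
      rw [h1, Matrix.submatrix_mul_equiv, Matrix.submatrix_mul_equiv, hA σ hσ])
    refine ⟨z, ?_⟩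
    ext a b
    have h1 := congrFun (congrFun hz (e a)) (e b)
    rw [Matrix.submatrix_apply, Equiv.symm_apply_apply, Equiv.symm_apply_apply,
      Matrix.smul_apply] at h1
    rw [h1, Matrix.smul_apply, Matrix.one_apply, Matrix.one_apply]
    simp only [EmbeddingLike.apply_eq_iff_eq]

end

theorem Nb_eq {n r : ℕ} {T : HS n} {c : Fin n → Fin r} {p q : Fin r → ℕ} (hB : T.Big c p q)
    (i : Fin r) : Nb c i = 2 * p i + q i := by
  unfold Nb
  rw [Fintype.card_subtype]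
  exact hB.rk i

/-- the relations -/
theorem triv_of {m r : ℕ} {R : Fin r → Fin m → ℤ[X]} {p : ℕ} (hp : 0 < p)
    (hmon : ∀ i a, (R i a).Monic)
    (hpure : ∀ i a, ∀ z : ℂ, aeval z (R i a) = 0 → ‖z‖ = p)
    (h : ∀ k : Fin m → Fin r → ℂ → ℤ,
      ∏ a, ∏ i, ∏ z ∈ ((R i a).aroots ℂ).toFinset, (z / p) ^ k a i z = 1 →
      ∀ a i, ∀ z ∈ ((R i a).aroots ℂ).toFinset, k a i z = k a i (starRingEnd ℂ z)) :
    Triv (fun x : Fin m × Fin r => tw p (R x.2 x.1)) := by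
  have hp' : (p : ℂ) ≠ 0 := by exact_mod_cast hp.ne'
  have hcr : ∀ a i, cr (tw p (R i a)) = ((R i a).aroots ℂ).toFinset.image fun z => (p : ℂ)⁻¹ * z := by
    intro a i
    unfold cr
    rw [tw_roots hp (hmon i a)]
    ext z
    simp only [Multiset.mem_toFinset, Multiset.mem_map, Finset.mem_image]
  have hinj : Function.Injective fun z : ℂ => (p : ℂ)⁻¹ * z := fun x y hxy =>
    mul_left_cancel₀ (inv_ne_zero hp') hxy
  intro k hk
  have h1 := h (fun a i z => k (a, i) ((p : ℂ)⁻¹ * z)) (by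
    rw [← hk, Fintype.prod_prod_type]
    refine Finset.prod_congr rfl fun a _ => Finset.prod_congr rfl fun i _ => ?_
    show _ = ∏ z ∈ cr (tw p (R i a)), z ^ k (a, i) z
    rw [hcr, Finset.prod_image hinj.injOn]
    refine Finset.prod_congr rfl fun z _ => ?_
    rw [div_eq_inv_mul])
  rintro ⟨a, i⟩ z hz
  have hz' : z ∈ cr (tw p (R i a)) := hz
  rw [hcr, Finset.mem_image] at hz'
  obtain ⟨y, hy, rfl⟩ := hz'
  have h2 : k (a, i) ((p : ℂ)⁻¹ * y) = k (a, i) ((p : ℂ)⁻¹ * starRingEnd ℂ y) := h1 a i y hy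
  have hy0 : aeval y (R i a) = 0 := by
    rw [Multiset.mem_toFinset, mem_aroots] at hy
    exact hy.2
  have hn := hpure i a y hy0
  have hyne : y ≠ 0 := by
    rintro rfl
    rw [norm_zero] at hn
    exact hp.ne (by exact_mod_cast hn)
  have h3 : ((p : ℂ)⁻¹ * y)⁻¹ = (p : ℂ)⁻¹ * starRingEnd ℂ y := by
    have h4 : y * starRingEnd ℂ y = (p : ℂ) * p := by
      rw [Complex.mul_conj, Complex.normSq_eq_norm_sq, hn]
      push_cast
      ring
    rw [mul_inv, inv_inv]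
    field_simp
    linear_combination -h4
  show k (a, i) ((p : ℂ)⁻¹ * y) = k (a, i) ((p : ℂ)⁻¹ * y)⁻¹
  rw [h3]
  exact h2

end Pool.Agent.V5helper94.MT
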