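import Pool.Agent.V5helper94.MT.ZarB
import Pool.Agent.R932.SQ.Main

/-!
# Transfer of the Mumford-Tate conjecture from one prime `ℓ₀`
-/

set_option autoImplicit false
set_option linter.unusedSectionVars false

namespace Pool.Agent.V5helper94.MT

open Matrix Filter Topology Polynomial NumberField IsDedekindDomain Module
open Pool.Agent.W544.PG (HS BD bl mC)
open Pool.Agent.Y95.MT
open Pool.Agent.R932
open Pool.Agent.R932.PO (JTan IsForm Kind Fits Allows)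
open Pool.Agent.R932.EV (SS SC)
open Pool.Agent.Y142.ZS (Sim SpLie)
open Pool.Agent.Y142.ZO (GK IsFrobenius IsTangent)

noncomputable section

variable {K : Type} [Field K] [NumberField K]

/-- the twist with the inverse cyclotomic character -/
def twk (ℓ : ℕ) [Fact ℓ.Prime] {N : ℕ} (ρ : GK K →* Matrix (Fin N) (Fin N) ℚ_[ℓ]) :
    GK K →* Matrix (Fin N) (Fin N) ℚ_[ℓ] where
  toFun g := kap K ℓ g • ρ g
  map_one' := by rw [map_one, map_one, one_smul]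
  map_mul' a b := by rw [map_mul, map_mul, smul_mul_smul_comm]

theorem twk_apply (ℓ : ℕ) [Fact ℓ.Prime] {N : ℕ} (ρ : GK K →* Matrix (Fin N) (Fin N) ℚ_[ℓ])
    (g : GK K) : twk ℓ ρ g = kap K ℓ g • ρ g := rfl

/-- **semisimplicity at every prime from the full Lie algebra at one prime, weight zero** -/
theorem ss_every (hK : finrank ℚ K = 1) {Γ : Type} [Group Γ] [TopologicalSpace Γ]
    (s : GK K →* Γ) (hs : Continuous s) {N : ℕ} (hN : 5 ≤ N)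
    {S : Set (HeightOneSpectrum (𝓞 K))} (hS : S.Finite) (R : HeightOneSpectrum (𝓞 K) → ℤ[X])
    (hR : ∀ v ∉ S, (R v).Monic ∧
      ∀ z : ℂ, aeval z (R v) = 0 → ‖z‖ = (Ideal.absNorm v.asIdeal : ℝ))
    (ρ : ∀ (ℓ : ℕ) [Fact ℓ.Prime], Γ →* Matrix (Fin N) (Fin N) ℚ_[ℓ])
    (hρ : ∀ (ℓ : ℕ) [Fact ℓ.Prime], Continuous (ρ ℓ))
    (J : ∀ (ℓ : ℕ) [Fact ℓ.Prime], Matrix (Fin N) (Fin N) ℚ_[ℓ])
    (hJ : ∀ (ℓ : ℕ) [Fact ℓ.Prime], (J ℓ)ᵀ = J ℓ)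
    (hdet : ∀ (ℓ : ℕ) [Fact ℓ.Prime], (J ℓ).det ≠ 0)
    (hiso : ∀ (ℓ : ℕ) [Fact ℓ.Prime] (g : Γ), (ρ ℓ g)ᵀ * J ℓ * ρ ℓ g = J ℓ)
    (hfrob : ∀ (ℓ : ℕ) [Fact ℓ.Prime], ∀ v ∉ S, (ℓ : 𝓞 K) ∉ v.asIdeal → ∀ σ : GK K,
      IsFrobenius v σ → ((Ideal.absNorm v.asIdeal : ℚ_[ℓ]) • ρ ℓ (s σ⁻¹)).charpoly =
        (R v).map (algebraMap ℤ ℚ_[ℓ]))
    (ℓ₀ : ℕ) [hℓ₀ : Fact ℓ₀.Prime]
    (hfull : ∀ X, SpLie (J ℓ₀) X → IsTangent ℓ₀ ((ρ ℓ₀).comp s) X) (ℓ : ℕ) [hℓ : Fact ℓ.Prime] :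
    SS (ρ ℓ) := by
  intro U hU
  have h1 := Pool.Agent.R932.SQ.semisimple_full hK (Γ := GK K) (MonoidHom.id (GK K)) (w := 2)
    (by norm_num) hS R (fun v hv => ⟨(hR v hv).1, fun z hz => by rw [(hR v hv).2 z hz]⟩)
    (fun ℓ _ => twk ℓ ((ρ ℓ).comp s)) (fun ℓ _ => ?_) J (fun ℓ _ => Or.inl (hJ ℓ)) hdet
    (fun ℓ _ g => kap K ℓ g ^ 2) (fun ℓ _ g => ?_) (fun ℓ _ v hv hvℓ σ hσ => ?_) ℓ₀ ?_ ℓ U
    (fun g x hx => ?_)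
  · refine ⟨_, h1.1, fun g x hx => ?_⟩
    have hb : ∀ x y : Fin N → ℚ_[ℓ], Pool.Agent.R932.SQ.bil (J ℓ) x y = x ⬝ᵥ J ℓ *ᵥ y := by
      intro x y
      exact Matrix.toBilin'_apply' (J ℓ) x y
    rw [LinearMap.BilinForm.mem_orthogonal_iff] at hx ⊢
    intro y hy
    have h2 : Pool.Agent.R932.SQ.bil (J ℓ) (ρ ℓ g⁻¹ *ᵥ y) x = 0 := hx _ (hU g⁻¹ y hy)
    show Pool.Agent.R932.SQ.bil (J ℓ) y (ρ ℓ g *ᵥ x) = 0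
    rw [hb] at h2 ⊢
    have hinv : ∀ (g : Γ) (x y : Fin N → ℚ_[ℓ]),
        (ρ ℓ g *ᵥ x) ⬝ᵥ J ℓ *ᵥ (ρ ℓ g *ᵥ y) = x ⬝ᵥ J ℓ *ᵥ y := by
      intro g x y
      rw [mulVec_mulVec]
      have h1 : (ρ ℓ g *ᵥ x) ⬝ᵥ (J ℓ * ρ ℓ g) *ᵥ y = x ⬝ᵥ ((ρ ℓ g)ᵀ * J ℓ * ρ ℓ g) *ᵥ y := by
        rw [Matrix.mul_assoc, ← mulVec_mulVec y (ρ ℓ g)ᵀ (J ℓ * ρ ℓ g), dotProduct_mulVec x,
          vecMul_transpose]
      rw [h1, hiso]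
    rw [← hinv g, mulVec_mulVec, ← map_mul, mul_inv_cancel, map_one, one_mulVec] at h2
    exact h2
  · show Continuous fun g => kap K ℓ g • ρ ℓ (s g)
    exact (kap_cont K ℓ).smul ((hρ ℓ).comp hs)
  · show (kap K ℓ g • ρ ℓ (s g))ᵀ * J ℓ * (kap K ℓ g • ρ ℓ (s g)) = kap K ℓ g ^ 2 • J ℓ
    rw [transpose_smul, Matrix.smul_mul, Matrix.smul_mul, Matrix.mul_smul, hiso, smul_smul, sq]
  · have h2 := kap_frob (ℓ := ℓ) hvℓ hσ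
    refine ⟨?_, ?_⟩
    · show (kap K ℓ σ⁻¹ • ρ ℓ (s σ⁻¹)).charpoly = _
      rw [h2]
      exact hfrob ℓ v hv hvℓ σ hσ
    · show kap K ℓ σ⁻¹ ^ 2 = _
      rw [h2]
  · intro X hX
    exact twist_tan (kap K ℓ₀) (kap_cont K ℓ₀) ((ρ ℓ₀).comp s) _ ((hρ ℓ₀).comp hs)
      (fun g => rfl) (J := J ℓ₀) ⟨Or.inl ⟨hJ ℓ₀, hN⟩, hdet ℓ₀⟩ hfull X hX
  · show (kap K ℓ g • ρ ℓ (s g)) *ᵥ x ∈ U
    rw [smul_mulVec]
    exact U.smul_mem _ (hU _ x hx)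

section transfer
variable {Γ : Type} [Group Γ] [TopologicalSpace Γ] [IsTopologicalGroup Γ] [CompactSpace Γ]
  {n r : ℕ} {c : Fin n → Fin r} {T : HS n} {p q : Fin r → ℕ} {s : GK K →* Γ}
  {S : Set (HeightOneSpectrum (𝓞 K))} {R : Fin r → HeightOneSpectrum (𝓞 K) → ℤ[X]}

/-- the joint Lie algebra of the blocks is full -/
def JT (c : Fin n → Fin r) (T : HS n) {Γ : Type} [Group Γ] (ℓ : ℕ) [Fact ℓ.Prime]
    {β : Γ →* Matrix (Fin n) (Fin n) ℤ_[ℓ]} (hc : ∀ σ, BD c (β σ)) : Prop :=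
  ∀ X, (∀ i, SpLie (sb c i (Ql ℓ T)) (X i)) → JTan ℓ (fun i => blk hc i) X

/-- the kind of a block -/
def kd (c : Fin n → Fin r) (i : Fin r) : Kind := if Even (Nb c i) then Kind.even else Kind.odd

/-- suitable prime numbers -/
def Suit (c : Fin n → Fin r) (T : HS n) (ℓ : ℕ) [Fact ℓ.Prime] (i : Fin r) : Prop :=
  (Odd (Nb c i) → ¬ ℓ ∣ Nb c i - 1) ∧
  (Even (Nb c i) → ¬ ℓ ∣ (Nb c i - 2) * (Nb c i - 4) ∧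
    Even (Padic.valuation (sb c i (Ql ℓ T)).det))

theorem norm_pos (v : HeightOneSpectrum (𝓞 K)) : 0 < Ideal.absNorm v.asIdeal := by
  rw [Nat.pos_iff_ne_zero]
  intro h5
  exact v.ne_bot (Ideal.absNorm_eq_zero_iff.1 h5)

/-- **the transfer** -/
theorem transfer (hB : T.Big c p q) (hrk : ∀ i, 5 ≤ Nb c i ∧ Nb c i ≠ 6) (hs : Continuous s)
    (hS : S.Finite) (hR : ∀ i, ∀ v ∉ S, (R i v).Monic ∧
      ∀ z : ℂ, aeval z (R i v) = 0 → ‖z‖ = (Ideal.absNorm v.asIdeal : ℝ))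
    (β : ∀ (ℓ : ℕ) [Fact ℓ.Prime], Γ →* Matrix (Fin n) (Fin n) ℤ_[ℓ])
    (hβ : ∀ (ℓ : ℕ) [Fact ℓ.Prime], Continuous (β ℓ))
    (hg : ∀ (ℓ : ℕ) [Fact ℓ.Prime], GalT c T.Q (β ℓ))
    (hF : ∀ (ℓ : ℕ) [Fact ℓ.Prime], Frob s S R (hg ℓ).bd)
    (ℓ₀ : ℕ) [hℓ₀ : Fact ℓ₀.Prime] (hsuit : ∀ i, Suit c T ℓ₀ i)
    (hone : MTC (hT T) (qrep ((β ℓ₀).comp s))) :
    Y142.ZI.DensityZero {ℓ | ∃ _ : Fact ℓ.Prime, ¬ JT c T ℓ (hg ℓ).bd} ∧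
    (∀ (ℓ : ℕ) [Fact ℓ.Prime], (∀ i, SS (blk (hg ℓ).bd i)) → (∀ i, SC (blk (hg ℓ).bd i)) →
      JT c T ℓ (hg ℓ).bd) ∧
    (finrank ℚ K = 1 → ∀ (ℓ : ℕ) [Fact ℓ.Prime], (∀ i, SS (blk (hg ℓ).bd i))) := by
  have hform : ∀ (i : Fin r) (ℓ : ℕ) [Fact ℓ.Prime], IsForm (sb c i (Ql ℓ T)) := fun i ℓ _ =>
    ⟨Or.inl ⟨sb_Ql_symm i, (hrk i).1⟩, sb_Ql_det hB.bQ i⟩
  have hfit : ∀ (i : Fin r) (ℓ : ℕ) [Fact ℓ.Prime], Fits (kd c i) (sb c i (Ql ℓ T)) := by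
    intro i ℓ _
    unfold kd
    split_ifs with he
    · refine ⟨sb_Ql_symm i, he, ?_⟩
      obtain ⟨m, hm⟩ := he
      have := hrk i
      omega
    · exact ⟨sb_Ql_symm i, Nat.not_even_iff_odd.1 he, (hrk i).1⟩
  have hsys : ∀ (i : Fin r) (ℓ : ℕ) [Fact ℓ.Prime], PO.Sys s (kd c i) (Nb c i) ℓ
      (blk (hg ℓ).bd i) (sb c i (Ql ℓ T)) S (fun v => tw (Ideal.absNorm v.asIdeal) (R i v))
      (fun _ => 1) := by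
    intro i ℓ _
    refine ⟨blk_cont (hβ ℓ) _ i, hfit i ℓ, sb_Ql_det hB.bQ i, fun γ => ⟨1, ?_, fun _ => rfl⟩, ?_⟩
    · rw [blk_form (hg ℓ) _ hB.bQ, one_smul]
    · intro v hv hvℓ σ hσ
      refine ⟨charpoly_tw (norm_pos v) (hR i v hv).1 (hF ℓ i v hv hvℓ σ hσ), ?_⟩
      rw [blk_form (hg ℓ) _ hB.bQ, Rat.cast_one, one_smul]
  have hbd₀ : ∀ σ, BD c (((β ℓ₀).comp s) σ) := fun σ => (hg ℓ₀).bd (s σ)
  have hg₀ : GalT c T.Q ((β ℓ₀).comp s) := ⟨fun σ => (hg ℓ₀).form (s σ), hbd₀⟩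
  have hfull₀ : ∀ X, (∀ i, SpLie (sb c i (Ql ℓ₀ T)) (X i)) →
      JTan ℓ₀ (fun i => (blk (hg ℓ₀).bd i).comp s) X := by
    intro X hX
    exact joint_of_mtc (β := (β ℓ₀).comp s) hB
      (show Continuous fun σ => β ℓ₀ (s σ) from (hβ ℓ₀).comp hs) hg₀ hbd₀ (fun i => (hrk i).1)
      hone X hX
  have hal : ∀ i, Allows (kd c i) (Nb c i) ℓ₀ (sb c i (Ql ℓ₀ T)) := by
    intro i
    unfold kd
    split_ifs with he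
    · exact (hsuit i).2 he
    · exact (hsuit i).1 (Nat.not_even_iff_odd.1 he)
  have hsev := PO.several (K := K) PO.tasks hs hS (fun i ℓ _ => blk (hg ℓ).bd i)
    (fun i ℓ _ => sb c i (Ql ℓ T)) hsys ℓ₀ hal hfull₀
  refine ⟨?_, fun ℓ _ h1 h2 => hsev.2 ℓ h1 h2, fun hK ℓ _ i => ?_⟩
  · refine Y142.ZI.DensityZero.mono hsev.1 ?_
    rintro ℓ ⟨hp, hno⟩
    refine ⟨hp, fun h => hno fun X hX => ?_⟩
    obtain ⟨σ, hσ⟩ := h X hX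
    exact ⟨fun k => s (σ k), hσ⟩
  · refine ss_every hK s hs (hrk i).1 hS (R i) (hR i) (fun ℓ _ => blk (hg ℓ).bd i)
      (fun ℓ _ => blk_cont (hβ ℓ) _ i) (fun ℓ _ => sb c i (Ql ℓ T)) (fun ℓ _ => sb_Ql_symm i)
      (fun ℓ _ => sb_Ql_det hB.bQ i) (fun ℓ _ g => blk_form (hg ℓ) _ hB.bQ i g)
      (fun ℓ _ v hv hvℓ σ hσ => hF ℓ i v hv hvℓ σ hσ) ℓ₀ (fun X hX => ?_) ℓ
    exact PO.one_of_joint (J := fun i => sb c i (Ql ℓ₀ T)) hfull₀ i X hX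

/-- the conjecture and the joint Lie algebra -/
theorem JT_iff {ℓ : ℕ} [Fact ℓ.Prime] {β : Γ →* Matrix (Fin n) (Fin n) ℤ_[ℓ]} (hB : T.Big c p q)
    (hβ : Continuous β) (hg : GalT c T.Q β) (hrk : ∀ i, 5 ≤ Nb c i) :
    MTC (hT T) (qrep β) ↔ JT c T ℓ hg.bd :=
  ⟨fun h X hX => joint_of_mtc hB hβ hg hg.bd hrk h X hX, fun h => mtcT_of_joint hB hβ hg hg.bd h⟩

/-- from the sum to `T` -/
theorem mtcT_of_sum {κ : Type} [Fintype κ] [DecidableEq κ] {ℓ : ℕ} [Fact ℓ.Prime] {G : Type}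
    [Group G] {β : G →* Matrix (Fin n) (Fin n) ℤ_[ℓ]} {v : G →* Matrix κ κ ℚ_[ℓ]}
    {hV : ℂ → Matrix κ κ ℂ} (hB : T.Big c p q) (hVd : ∀ z, z ≠ 0 → (hV z).det ≠ 0)
    (hx : fromBlocks 0 0 0 T.x ∈ LS (SH (hM hV T))) (hg : GalT c T.Q β)
    (h : MTC (hM hV T) (tot v β)) : MTC (hT T) (qrep β) := by
  obtain ⟨e⟩ := exists_emb ℓ
  rw [mtcT_iff hB hg]
  intro g hgs
  have hd := InSO_det (Pool.Agent.W74.PG.det_ne T) hgs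
  refine InG0_snd (v := v) ?_
  refine (h _ (by rw [fb_det, Matrix.det_one, one_mul]; exact hd)).2 ?_
  rw [InMT_iff (c := c) hB hVd hx e
    (by rw [fb_det, Matrix.det_one, one_mul]; exact hd), Matrix.toBlocks_fromBlocks₁₁,
    Matrix.toBlocks_fromBlocks₂₂]
  exact ⟨rfl, InMT_one e _, hgs⟩

end transfer

end

end Pool.Agent.V5helper94.MT
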