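import Pool.Agent.Y142.MainA
import Pool.Agent.Y802.Cyc
import Pool.Agent.R932.EV.Ss

/-!
# Semisimplicity of a polarized representation of weight zero, twisted to weight two
-/

set_option autoImplicit false
set_option linter.unusedSectionVars false

namespace Pool.Agent.V5helper94.MT

open Matrix Polynomial Filter Topology NumberField IsDedekindDomain Module
open Pool.Agent.W401.Cheb
open Pool.Agent.Y142 (IsoRel)

/-- the characteristic polynomial of a multiple -/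
theorem charpoly_smul {F : Type} [Field F] [CharZero F] {N : ℕ} {c : F} (hc : c ≠ 0)
    (M : Matrix (Fin N) (Fin N) F) : (c • M).charpoly = M.charpoly.scaleRoots c := by
  apply Polynomial.funext
  intro t
  rw [Matrix.eval_charpoly]
  obtain ⟨u, rfl⟩ : ∃ u, t = c * u := ⟨c⁻¹ * t, by rw [← mul_assoc, mul_inv_cancel₀ hc, one_mul]⟩
  have h1 := scaleRoots_eval₂_mul (p := M.charpoly) (RingHom.id F) u c
  rw [RingHom.id_apply, eval₂_id, eval₂_id, Matrix.eval_charpoly] at h1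
  rw [h1, Matrix.charpoly_natDegree_eq_dim]
  have h2 : Matrix.scalar (Fin N) (c * u) - c • M = c • (Matrix.scalar (Fin N) u - M) := by
    rw [smul_sub]
    congr 1
    ext a b
    simp [Matrix.scalar_apply, Matrix.diagonal_apply]
  rw [h2, Matrix.det_smul]

section
variable {K : Type} [Field K] [NumberField K]

/-- the inverse of the cyclotomic character as a number -/
noncomputable def kap (K : Type) [Field K] (ℓ : ℕ) [Fact ℓ.Prime] : GK K →* ℚ_[ℓ] where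
  toFun g := ((((Pool.Agent.Y802.chi K ℓ g)⁻¹ : ℤ_[ℓ]ˣ) : ℤ_[ℓ]) : ℚ_[ℓ])
  map_one' := by simp
  map_mul' a b := by
    rw [map_mul, mul_inv, Units.val_mul, PadicInt.coe_mul]

theorem kap_cont (K : Type) [Field K] (ℓ : ℕ) [Fact ℓ.Prime] : Continuous (kap K ℓ) := by
  have h1 : Continuous fun g : GK K => (Pool.Agent.Y802.chi K ℓ g)⁻¹ :=
    continuous_inv.comp (Pool.Agent.Y802.continuous_chi K ℓ)
  have h2 : Continuous fun g : GK K => (((Pool.Agent.Y802.chi K ℓ g)⁻¹ : ℤ_[ℓ]ˣ) : ℤ_[ℓ]) :=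
    Units.continuous_val.comp h1
  exact continuous_subtype_val.comp h2

theorem kap_ne (ℓ : ℕ) [Fact ℓ.Prime] (g : GK K) : kap K ℓ g ≠ 0 := by
  intro h
  have h1 := (kap K ℓ).map_mul g g⁻¹
  rw [mul_inv_cancel, map_one, h, zero_mul] at h1
  exact one_ne_zero h1

theorem kap_frob {ℓ : ℕ} [Fact ℓ.Prime] {v : HeightOneSpectrum (𝓞 K)} (hv : (ℓ : 𝓞 K) ∉ v.asIdeal)
    {σ : GK K} (hσ : IsFrob v σ) : kap K ℓ σ⁻¹ = (Ideal.absNorm v.asIdeal : ℚ_[ℓ]) := by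
  have h1 := Pool.Agent.Y802.chi_frob hv hσ
  show ((((Pool.Agent.Y802.chi K ℓ σ⁻¹)⁻¹ : ℤ_[ℓ]ˣ) : ℤ_[ℓ]) : ℚ_[ℓ]) = _
  rw [map_inv, inv_inv, h1]
  simp

/-- **semisimplicity** -/
theorem ss_of {N : ℕ} {ℓ : ℕ} [hℓ : Fact ℓ.Prime] {Γ : Type} [Group Γ] [TopologicalSpace Γ]
    (s : GK K →* Γ) (hs : Continuous s) (ρ : Γ →* Matrix (Fin N) (Fin N) ℚ_[ℓ])
    (hρ : Continuous ρ) (B : Matrix (Fin N) (Fin N) ℚ_[ℓ]) (hB : Bᵀ = B) (hdet : B.det ≠ 0)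
    (hiso : ∀ g, (ρ g)ᵀ * B * ρ g = B) {S : Set (HeightOneSpectrum (𝓞 K))} (hS : S.Finite)
    (R : HeightOneSpectrum (𝓞 K) → ℤ[X])
    (hR : ∀ v ∉ S, (R v).Monic ∧
      ∀ z : ℂ, aeval z (R v) = 0 → ‖z‖ = (Ideal.absNorm v.asIdeal : ℝ))
    (hfrob : ∀ v ∉ S, (ℓ : 𝓞 K) ∉ v.asIdeal → ∀ σ : GK K, IsFrob v σ →
      ((Ideal.absNorm v.asIdeal : ℚ_[ℓ]) • ρ (s σ⁻¹)).charpoly =
        (R v).map (algebraMap ℤ ℚ_[ℓ]))
    {p : ℕ} (hp : p.Prime) (hpl : p ≠ ℓ)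
    (v : Fin (finrank ℚ K) → HeightOneSpectrum (𝓞 K)) (hv : Function.Injective v)
    (hvp : ∀ i, (p : 𝓞 K) ∈ (v i).asIdeal ∧ v i ∉ S)
    (hno : ∀ d, 0 < d → ¬ IsoRel ℂ ℂ (fun i => R (v i)) (p ^ 2) d)
    (U : Submodule ℚ_[ℓ] (Fin N → ℚ_[ℓ])) (hU : ∀ g : Γ, ∀ x ∈ U, ρ g *ᵥ x ∈ U) :
    IsCompl U ((Matrix.toBilin' B).orthogonal U) ∧
      ∀ g : Γ, ∀ x ∈ (Matrix.toBilin' B).orthogonal U,
        ρ g *ᵥ x ∈ (Matrix.toBilin' B).orthogonal U := by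
  have hb : ∀ x y : Fin N → ℚ_[ℓ], Matrix.toBilin' B x y = x ⬝ᵥ B *ᵥ y := by
    intro x y
    exact Matrix.toBilin'_apply' B x y
  have hnd : (Matrix.toBilin' B).Nondegenerate :=
    LinearMap.BilinForm.nondegenerate_toBilin'_of_det_ne_zero' B hdet
  have hswap : ∀ x y : Fin N → ℚ_[ℓ], x ⬝ᵥ B *ᵥ y = y ⬝ᵥ Bᵀ *ᵥ x := by
    intro x y
    rw [dotProduct_mulVec, dotProduct_comm, ← mulVec_transpose]
  have hrefl : (Matrix.toBilin' B).IsRefl := by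
    intro x y h
    rw [hb] at h ⊢
    rw [hswap, hB]
    exact h
  have hinv : ∀ (g : Γ) (x y : Fin N → ℚ_[ℓ]), (ρ g *ᵥ x) ⬝ᵥ B *ᵥ (ρ g *ᵥ y) = x ⬝ᵥ B *ᵥ y := by
    intro g x y
    rw [mulVec_mulVec]
    have h1 : (ρ g *ᵥ x) ⬝ᵥ (B * ρ g) *ᵥ y = x ⬝ᵥ ((ρ g)ᵀ * B * ρ g) *ᵥ y := by
      rw [Matrix.mul_assoc, ← mulVec_mulVec y (ρ g)ᵀ (B * ρ g), dotProduct_mulVec x,
        vecMul_transpose]
    rw [h1, hiso]
  let ρ' : GK K →* Matrix (Fin N) (Fin N) ℚ_[ℓ] :=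
    { toFun := fun g => kap K ℓ g • ρ (s g)
      map_one' := by rw [map_one, map_one, map_one, one_smul]
      map_mul' := fun a b => by
        rw [map_mul, map_mul, map_mul, smul_mul_smul_comm] }
  have hρ' : ∀ g, ρ' g = kap K ℓ g • ρ (s g) := fun g => rfl
  have hmain := Pool.Agent.Y142.semisimple_A (K := K) (ℓ := ℓ) (MonoidHom.id (GK K))
    (V := Fin N → ℚ_[ℓ]) ((Matrix.toLinAlgEquiv' (R := ℚ_[ℓ]) (n := Fin N)).toMonoidHom.comp ρ')
    (fun φ x => ?_) (Matrix.toBilin' B) hnd hrefl (fun g => kap K ℓ g ^ 2) (fun g x y => ?_)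
    (w := 2) (by norm_num)
    (S := S ∪ {v | (ℓ : 𝓞 K) ∈ v.asIdeal}) (hS.union Pool.Agent.Y802.finite_above) R
    (fun v hv => ⟨(hR v fun h => hv (Or.inl h)).1, fun z hz => ?_,
      fun σ hσ => ?_⟩) (fun d hd hdN _ => ?_) U (fun g x hx => ?_)
  · refine ⟨hmain.1, fun g x hx => ?_⟩
    -- the complement is stable because the form is preserved
    rw [LinearMap.BilinForm.mem_orthogonal_iff] at hx ⊢
    intro y hy
    have h1 : Matrix.toBilin' B (ρ g⁻¹ *ᵥ y) x = 0 := hx (ρ g⁻¹ *ᵥ y) (hU g⁻¹ y hy)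
    show Matrix.toBilin' B y (ρ g *ᵥ x) = 0
    rw [hb] at h1 ⊢
    rw [← hinv g, mulVec_mulVec, ← map_mul, mul_inv_cancel, map_one, one_mulVec] at h1
    exact h1
  · have h1 : Continuous φ := φ.continuous_of_finiteDimensional
    refine h1.comp ?_
    show Continuous fun g => ρ' g *ᵥ x
    refine Continuous.matrix_mulVec ?_ continuous_const
    exact (kap_cont K ℓ).smul (hρ.comp hs)
  · show Matrix.toBilin' B (ρ' g *ᵥ x) (ρ' g *ᵥ y) = kap K ℓ g ^ 2 * Matrix.toBilin' B x y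
    rw [hb, hb, hρ', smul_mulVec, smul_mulVec, mulVec_smul, dotProduct_smul, smul_dotProduct,
      hinv, smul_eq_mul, smul_eq_mul]
    ring
  · rw [(hR v fun h => hv (Or.inl h)).2 z hz]
  · have h1 := hfrob v (fun h => hv (Or.inl h)) (fun h => hv (Or.inr h)) σ hσ
    have h2 := kap_frob (ℓ := ℓ) (fun h => hv (Or.inr h)) hσ
    refine ⟨?_, ?_⟩
    · rw [← h1]
      show (Matrix.toLin' (ρ' σ⁻¹)).charpoly = _
      rw [Matrix.charpoly_toLin', hρ', h2]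
    · show kap K ℓ σ⁻¹ ^ 2 = _
      rw [h2]
  · refine ⟨p, v, hp, hv, fun i => ⟨(hvp i).1, ?_⟩, fun h => hno d hd h.1⟩
    rintro (h | h)
    · exact (hvp i).2 h
    · -- two primes in one place
      have h1 : IsCoprime (p : ℤ) (ℓ : ℤ) :=
        Nat.isCoprime_iff_coprime.2 ((Nat.coprime_primes hp hℓ.out).2 hpl)
      obtain ⟨a, b, hab⟩ := h1
      apply (v i).isPrime.ne_top
      rw [Ideal.eq_top_iff_one]
      have h2 := congrArg (fun t : ℤ => (t : 𝓞 K)) hab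
      simp only [Int.cast_add, Int.cast_mul, Int.cast_natCast, Int.cast_one] at h2
      rw [← h2]
      exact Ideal.add_mem _ (Ideal.mul_mem_left _ _ (hvp i).1) (Ideal.mul_mem_left _ _ h)
  · show ρ' g *ᵥ x ∈ U
    rw [hρ', smul_mulVec]
    exact U.smul_mem _ (hU _ x hx)

end

end Pool.Agent.V5helper94.MT
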