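import Pool.Agent.V5helper94.MT.Rel2
import Pool.Agent.V5helper94.MT.SSB
import Pool.Agent.R932.PO.All

/-!
# The joint Lie algebra of several orthogonal representations, from one place without relations
-/

set_option autoImplicit false
set_option linter.unusedSectionVars false

namespace Pool.Agent.V5helper94.MT

open Matrix Polynomial Filter Topology NumberField IsDedekindDomain Module
open Pool.Agent.Y142.ZO Pool.Agent.Y142.ZI Pool.Agent.Y142.ZS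
open Pool.Agent.R932.EV (SS SC)
open Pool.Agent.R932.PO (JTan IsForm)

/-- the characteristic polynomial of the untwisted Frobenius element -/
theorem charpoly_tw {ℓ N q : ℕ} [Fact ℓ.Prime] (hq : 0 < q) {R : ℤ[X]} (hR : R.Monic)
    {M : Matrix (Fin N) (Fin N) ℚ_[ℓ]}
    (h : ((q : ℚ_[ℓ]) • M).charpoly = R.map (algebraMap ℤ ℚ_[ℓ])) :
    M.charpoly = (tw q R).map (algebraMap ℚ ℚ_[ℓ]) := by
  have hq' : (q : ℚ_[ℓ]) ≠ 0 := by exact_mod_cast hq.ne'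
  have h1 : M = (q : ℚ_[ℓ])⁻¹ • ((q : ℚ_[ℓ]) • M) := by
    rw [smul_smul, inv_mul_cancel₀ hq', one_smul]
  rw [h1, charpoly_smul (inv_ne_zero hq'), h]
  unfold tw
  rw [map_scaleRoots _ _ _ (by
    rw [(hR.map _).leadingCoeff, map_one]
    exact one_ne_zero), Polynomial.map_map]
  have h2 : (algebraMap ℚ ℚ_[ℓ]).comp (Int.castRingHom ℚ) = algebraMap ℤ ℚ_[ℓ] :=
    Subsingleton.elim _ _
  rw [h2, map_inv₀, map_natCast]

section
variable {K : Type} [Field K] [NumberField K] {ℓ : ℕ} [hℓ : Fact ℓ.Prime]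
  {Γ : Type} [Group Γ] [TopologicalSpace Γ] [IsTopologicalGroup Γ] [CompactSpace Γ]

/-- one block -/
theorem one_full {N : ℕ} (hN : 5 ≤ N) (s : GK K →* Γ)
    (ρ : Γ →* Matrix (Fin N) (Fin N) ℚ_[ℓ]) (hρ : Continuous ρ)
    (B : Matrix (Fin N) (Fin N) ℚ_[ℓ]) (hB : Bᵀ = B) (hdet : B.det ≠ 0)
    (hiso : ∀ g, (ρ g)ᵀ * B * ρ g = B) {J : Type} [Fintype J] [DecidableEq J] {F : J → ℚ[X]}
    (hF : Triv F) (j : J) (hpol : Pol (F j)) (v : HeightOneSpectrum (𝓞 K))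
    (hfrob : ∀ σ : GK K, IsFrobenius v σ →
      (ρ (s σ⁻¹)).charpoly = (F j).map (algebraMap ℚ ℚ_[ℓ]))
    (hss : SS ρ) (hsc : SC ρ) : FullLie ℓ ρ B := by
  obtain ⟨σ, hσ⟩ := Pool.Agent.W401.Frob.exists_frob v
  have hdeg : (F j).natDegree = N := by
    have h1 := congrArg natDegree (hfrob σ hσ)
    rw [Matrix.charpoly_natDegree_eq_dim, Fintype.card_fin, natDegree_map] at h1
    exact h1.symm
  have hsi := Pool.Agent.R932.EV.strong_of_ss ρ hss hsc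
  rcases Nat.even_or_odd N with he | ho
  · refine Pool.Agent.R932.EV.full_of_genO (S := ∅) (P := fun _ => F j) (w := v)
      (genO_of hF hpol (by rw [hdeg]; exact he) (Set.notMem_empty _) rfl) ℓ s ρ B hB hdet hiso
      hfrob ?_
    exact fun 𝒜 h𝒜 => Pool.Agent.R932.EV.alg_top ρ hρ (by omega) hsi hsc 𝒜 h𝒜
  · obtain ⟨Q, hQ, hxyz⟩ := good_of (S := ∅) (P := fun _ => F j) (v := v) hF hpol
      (by rw [hdeg]; exact ho) (Set.notMem_empty _) rfl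
    exact Pool.Agent.R932.EV.full_of_good hQ hxyz ℓ s ρ B hρ hB hdet hiso hfrob hsi

/-- **the joint Lie algebra** -/
theorem joint_of_sc {r : ℕ} {N : Fin r → ℕ} (hN : ∀ i, 5 ≤ N i) (s : GK K →* Γ)
    (ρ : ∀ i, Γ →* Matrix (Fin (N i)) (Fin (N i)) ℚ_[ℓ]) (hρ : ∀ i, Continuous (ρ i))
    (B : ∀ i, Matrix (Fin (N i)) (Fin (N i)) ℚ_[ℓ]) (hB : ∀ i, (B i)ᵀ = B i)
    (hdet : ∀ i, (B i).det ≠ 0) (hiso : ∀ i g, (ρ i g)ᵀ * B i * ρ i g = B i)
    {J : Type} [Fintype J] [DecidableEq J] {F : J → ℚ[X]}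
    (hF : Triv F) (j : Fin r → J) (hj : Function.Injective j) (hpol : ∀ i, Pol (F (j i)))
    (v : HeightOneSpectrum (𝓞 K))
    (hfrob : ∀ i, ∀ σ : GK K, IsFrobenius v σ →
      (ρ i (s σ⁻¹)).charpoly = (F (j i)).map (algebraMap ℚ ℚ_[ℓ]))
    (hss : ∀ i, SS (ρ i)) (hsc : ∀ i, SC (ρ i))
    (X : ∀ i, Matrix (Fin (N i)) (Fin (N i)) ℚ_[ℓ]) (hX : ∀ i, SpLie (B i) (X i)) :
    JTan ℓ ρ X := by
  have hone : ∀ i, ∀ X, SpLie (B i) X → IsTangent ℓ (ρ i) X := fun i X hX =>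
    one_full (hN i) s (ρ i) (hρ i) (B i) (hB i) (hdet i) (hiso i) hF (j i) (hpol i) v (hfrob i)
      (hss i) (hsc i) X ((Pool.Agent.R932.PO.skew_sp (hB i)).2 hX)
  have hform : ∀ i, IsForm (B i) := fun i => ⟨Or.inl ⟨hB i, hN i⟩, hdet i⟩
  have hsim : ∀ i g, ∃ c, Sim (B i) (ρ i g) c := fun i g => ⟨1, by
    show (ρ i g)ᵀ * B i * ρ i g = _
    rw [hiso, one_smul]⟩
  refine Pool.Agent.R932.PO.joint_full Pool.Agent.R932.PO.jlie Pool.Agent.R932.PO.jlift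
    Pool.Agent.R932.PO.gour (Pool.Agent.R932.PO.pair Pool.Agent.R932.PO.jlie
      Pool.Agent.R932.PO.jlift) hρ hform hsim hone ?_ X hX
  intro a b hab Θ h1 h2
  obtain ⟨σ, hσ⟩ := Pool.Agent.W401.Frob.exists_frob v
  have hdeg : (F (j a)).natDegree = N a := by
    have h1 := congrArg natDegree (hfrob a σ hσ)
    rw [Matrix.charpoly_natDegree_eq_dim, Fintype.card_fin, natDegree_map] at h1
    exact h1.symm
  obtain ⟨x, hx, hx1⟩ := (hpol a).exists_root (by rw [hdeg]; have := hN a; omega)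
  have hx0 := (hpol a).root_ne hx
  refine Pool.Agent.R932.PO.eqv ℓ (N a) (N b) Γ (ρ a) (ρ b) (hρ a) (B a) (hform a) (hsim a)
    (hone a) (s σ⁻¹) (F (j a)) (F (j b)) 1 (hfrob a σ hσ) ?_ (hfrob b σ hσ) (Units.mk0 x hx0) hx
    ?_ Θ h1 h2
  · show (ρ a (s σ⁻¹))ᵀ * B a * ρ a (s σ⁻¹) = _
    rw [hiso, Rat.cast_one, one_smul]
  · intro m hm
    exact hF.indep (fun h => hab (hj h)) (hpol a) (hpol b) hx hx1 m hm

end

end Pool.Agent.V5helper94.MT
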