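import Pool.Agent.V5helper94.MT.Blocks
import Pool.Agent.V5helper94.MT.Joint
import Pool.Agent.R932.SumDens
import Pool.Agent.R932.GR.Zar

/-!
# The blocks of the representation, and the Mumford-Tate conjecture
-/

set_option autoImplicit false
set_option linter.unusedSectionVars false

namespace Pool.Agent.V5helper94.MT

open Matrix Filter Topology
open Pool.Agent.W544.PG (HS BD bl mC)
open Pool.Agent.Y95.MT
open Pool.Agent.R932
open Pool.Agent.R932.PO (JTan)
open Pool.Agent.R932.EV (SS SC)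
open Pool.Agent.Y142.ZS (Sim SpLie)

noncomputable section

/-- a matrix which commutes with the orthogonal Lie algebra is scalar -/
theorem scalar_of_skew {F : Type} [Field F] {N : ℕ} (hN : 3 ≤ N) {J A : Matrix (Fin N) (Fin N) F}
    (hJ : Jᵀ = J) (hdet : J.det ≠ 0) (h : ∀ X, SpLie J X → A * X = X * A) :
    ∃ z : F, A = z • 1 := by
  have hu : IsUnit J.det := isUnit_iff_ne_zero.2 hdet
  set A' := J * A * J⁻¹ with hA'
  have hK : ∀ K : Matrix (Fin N) (Fin N) F, Kᵀ = -K → A' * K = K * A := by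
    intro K hK
    have h1 := h (J⁻¹ * K) (by
      refine Pool.Agent.R932.PO.sp_inv hdet (e := 1) (by rw [one_smul]; exact hJ) ?_
      rw [one_smul]
      exact hK)
    have h2 : J * (A * (J⁻¹ * K)) = J * (J⁻¹ * K * A) := by rw [h1]
    rw [Matrix.mul_assoc J⁻¹ K A, ← Matrix.mul_assoc J J⁻¹, Matrix.mul_nonsing_inv _ hu,
      Matrix.one_mul] at h2
    rw [← h2, hA']
    simp only [Matrix.mul_assoc]
  have h1 : ∀ a b : Fin N, a ≠ b → A' * (Matrix.single a b 1 - Matrix.single b a 1) =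
      (Matrix.single a b 1 - Matrix.single b a 1) * A := fun a b _ => hK _ (by
    rw [transpose_sub, transpose_single, transpose_single, neg_sub])
  have hex : ∀ a b : Fin N, ∃ d : Fin N, d ≠ a ∧ d ≠ b := by
    intro a b
    have h2 : ({a, b} : Finset (Fin N)).card < (Finset.univ : Finset (Fin N)).card := by
      rw [Finset.card_univ, Fintype.card_fin]
      exact lt_of_le_of_lt Finset.card_le_two (by omega)
    obtain ⟨d, -, hd⟩ := Finset.exists_mem_notMem_of_card_lt_card h2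
    rw [Finset.mem_insert, Finset.mem_singleton] at hd
    push Not at hd
    exact ⟨d, hd.1, hd.2⟩
  -- the entries
  have hoff : ∀ b j : Fin N, b ≠ j → A b j = 0 := by
    intro b j hbj
    obtain ⟨a, hab, haj⟩ := hex b j
    have h2 := congrFun (congrFun (h1 a b hab) a) j
    rw [mul_sub, sub_mul, Matrix.sub_apply, Matrix.sub_apply,
      Matrix.mul_single_apply_of_ne _ _ _ _ _ (Ne.symm hbj),
      Matrix.mul_single_apply_of_ne _ _ _ _ _ (Ne.symm haj), Matrix.single_mul_apply_same,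
      Matrix.single_mul_apply_of_ne _ _ _ _ _ hab, sub_zero, sub_zero, one_mul] at h2
    exact h2.symm
  have hdiag : ∀ a b : Fin N, a ≠ b → A' a a = A b b := by
    intro a b hab
    have h2 := congrFun (congrFun (h1 a b hab) a) b
    rw [mul_sub, sub_mul, Matrix.sub_apply, Matrix.sub_apply,
      Matrix.mul_single_apply_same,
      Matrix.mul_single_apply_of_ne _ _ _ _ _ (Ne.symm hab), Matrix.single_mul_apply_same,
      Matrix.single_mul_apply_of_ne _ _ _ _ _ hab, sub_zero, sub_zero, one_mul, mul_one] at h2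
    exact h2
  have heq : ∀ b d : Fin N, A b b = A d d := by
    intro b d
    obtain ⟨a, hab, had⟩ := hex b d
    rw [← hdiag a b hab, ← hdiag a d had]
  refine ⟨A ⟨0, by omega⟩ ⟨0, by omega⟩, ?_⟩
  ext a b
  by_cases hab : a = b
  · subst hab
    rw [Matrix.smul_apply, Matrix.one_apply_eq, smul_eq_mul, mul_one]
    exact heq _ _
  · rw [Matrix.smul_apply, Matrix.one_apply_ne hab, smul_zero]
    exact hoff a b hab

variable {ℓ : ℕ} [hℓ : Fact ℓ.Prime] {n r : ℕ} {c : Fin n → Fin r} {T : HS n} {p q : Fin r → ℕ}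
  {Γ : Type} [Group Γ] {β : Γ →* Matrix (Fin n) (Fin n) ℤ_[ℓ]}

theorem qm_BD (hc : ∀ σ, BD c (β σ)) (σ : Γ) : BD c (qm (β σ)) := by
  intro a b hab
  unfold qm
  rw [Matrix.map_apply, hc σ a b hab, map_zero]

/-- the blocks of the representation -/
def blk (hc : ∀ σ, BD c (β σ)) (i : Fin r) :
    Γ →* Matrix (Fin (Nb c i)) (Fin (Nb c i)) ℚ_[ℓ] where
  toFun σ := sb c i (qm (β σ))
  map_one' := by rw [map_one, qm_one, sb_one]
  map_mul' σ τ := by rw [map_mul, qm_mul, sb_mul (qm_BD hc σ)]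

/-- the form over the `ℓ`-adic numbers -/
def Ql (ℓ : ℕ) [Fact ℓ.Prime] (T : HS n) : Matrix (Fin n) (Fin n) ℚ_[ℓ] :=
  T.Q.map (algebraMap ℚ ℚ_[ℓ])

theorem Ql_BD (hbQ : BD c T.Q) : BD c (Ql ℓ T) := by
  intro a b hab
  unfold Ql
  rw [Matrix.map_apply, hbQ a b hab, map_zero]

theorem BD_transpose {R : Type} [Zero R] {A : Matrix (Fin n) (Fin n) R} (h : BD c A) :
    BD c Aᵀ := fun a b hab => h b a (Ne.symm hab)

theorem blk_form (hg : GalT c T.Q β) (hc : ∀ σ, BD c (β σ)) (hbQ : BD c T.Q) (i : Fin r) (σ : Γ) :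
    (blk hc i σ)ᵀ * sb c i (Ql ℓ T) * blk hc i σ = sb c i (Ql ℓ T) := by
  show (sb c i (qm (β σ)))ᵀ * sb c i (Ql ℓ T) * sb c i (qm (β σ)) = _
  have hb := BD_transpose (qm_BD hc σ)
  have h2 : BD c ((qm (β σ))ᵀ * Ql ℓ T) := by
    intro a b hab
    rw [Matrix.mul_apply]
    refine Finset.sum_eq_zero fun d _ => ?_
    by_cases hd : c a = c d
    · rw [Ql_BD hbQ d b (by rw [← hd]; exact hab), mul_zero]
    · rw [hb a d hd, zero_mul]
  rw [← sb_transpose, ← sb_mul hb, ← sb_mul h2]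
  exact congrArg (sb c i) (hg.form σ)

theorem sb_Ql_symm (i : Fin r) : (sb c i (Ql ℓ T))ᵀ = sb c i (Ql ℓ T) := by
  rw [← sb_transpose]
  exact congrArg (sb c i) (qsymm T)

theorem sb_Ql_det (hbQ : BD c T.Q) (i : Fin r) : (sb c i (Ql ℓ T)).det ≠ 0 :=
  sb_det_ne (Ql_BD hbQ) (qdet T) i

theorem blk_cont [TopologicalSpace Γ] (hβ : Continuous β) (hc : ∀ σ, BD c (β σ)) (i : Fin r) :
    Continuous (blk hc i) := by
  show Continuous fun σ => sb c i (qm (β σ))
  exact Continuous.matrix_submatrix (continuous_qm.comp hβ) _ _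

/-- tangent vectors of the blocks and of the representation -/
theorem tan_of_joint (hc : ∀ σ, BD c (β σ)) (hbQ : BD c T.Q)
    (h : ∀ X, (∀ i, SpLie (sb c i (Ql ℓ T)) (X i)) → JTan ℓ (fun i => blk hc i) X)
    (X : Matrix (Fin n) (Fin n) ℚ_[ℓ]) (hX : Xᵀ * Ql ℓ T + Ql ℓ T * X = 0) (hXb : BD c X) :
    ∃ σ : ℕ → Γ, Tendsto (fun k : ℕ => ((ℓ : ℚ_[ℓ]) ^ k)⁻¹ • (qm (β (σ k)) - 1)) atTop
      (𝓝 X) := by
  obtain ⟨σ, hσ⟩ := h (fun i => sb c i X) (fun i => by
    show (sb c i X)ᵀ * sb c i (Ql ℓ T) + sb c i (Ql ℓ T) * sb c i X = 0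
    rw [← sb_transpose, ← sb_mul (BD_transpose hXb), ← sb_mul (Ql_BD hbQ), ← sb_add, hX, sb_zero])
  refine ⟨σ, ?_⟩
  refine tendsto_pi_nhds.2 fun a => tendsto_pi_nhds.2 fun b => ?_
  by_cases hab : c a = c b
  · have h1 := tendsto_pi_nhds.1 (tendsto_pi_nhds.1 (hσ (c b)) ((eb c (c b)).symm ⟨a, hab⟩))
      ((eb c (c b)).symm ⟨b, rfl⟩)
    have e1 : (eb c (c b) ((eb c (c b)).symm ⟨a, hab⟩)).1 = a := by rw [Equiv.apply_symm_apply]
    have e2 : (eb c (c b) ((eb c (c b)).symm ⟨b, rfl⟩)).1 = b := by rw [Equiv.apply_symm_apply]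
    have e3 : sb c (c b) X ((eb c (c b)).symm ⟨a, hab⟩) ((eb c (c b)).symm ⟨b, rfl⟩) = X a b := by
      show X (eb c (c b) ((eb c (c b)).symm ⟨a, hab⟩)).1
        (eb c (c b) ((eb c (c b)).symm ⟨b, rfl⟩)).1 = _
      rw [e1, e2]
    have h1' : Tendsto (fun k : ℕ => (((ℓ : ℚ_[ℓ]) ^ k)⁻¹ • (blk hc (c b) (σ k) - 1))
        ((eb c (c b)).symm ⟨a, hab⟩) ((eb c (c b)).symm ⟨b, rfl⟩)) atTop
        (𝓝 (sb c (c b) X ((eb c (c b)).symm ⟨a, hab⟩) ((eb c (c b)).symm ⟨b, rfl⟩))) := h1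
    rw [e3] at h1'
    refine h1'.congr fun k => ?_
    show ((ℓ : ℚ_[ℓ]) ^ k)⁻¹ * ((sb c (c b) (qm (β (σ k)))) _ _ - (1 : Matrix _ _ ℚ_[ℓ]) _ _) =
      ((ℓ : ℚ_[ℓ]) ^ k)⁻¹ * (qm (β (σ k)) a b - (1 : Matrix (Fin n) (Fin n) ℚ_[ℓ]) a b)
    have e4 : sb c (c b) (qm (β (σ k))) ((eb c (c b)).symm ⟨a, hab⟩) ((eb c (c b)).symm ⟨b, rfl⟩)
        = qm (β (σ k)) a b := by
      show qm (β (σ k)) (eb c (c b) ((eb c (c b)).symm ⟨a, hab⟩)).1
        (eb c (c b) ((eb c (c b)).symm ⟨b, rfl⟩)).1 = _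
      rw [e1, e2]
    have e5 : (1 : Matrix (Fin (Nb c (c b))) (Fin (Nb c (c b))) ℚ_[ℓ])
        ((eb c (c b)).symm ⟨a, hab⟩) ((eb c (c b)).symm ⟨b, rfl⟩) =
        (1 : Matrix (Fin n) (Fin n) ℚ_[ℓ]) a b := by
      rw [← sb_one (c := c) (R := ℚ_[ℓ]) (c b)]
      show (1 : Matrix (Fin n) (Fin n) ℚ_[ℓ]) (eb c (c b) ((eb c (c b)).symm ⟨a, hab⟩)).1
        (eb c (c b) ((eb c (c b)).symm ⟨b, rfl⟩)).1 = _
      rw [e1, e2]
    rw [e4, e5]
  · rw [hXb a b hab]
    refine tendsto_const_nhds.congr fun k => ?_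
    show (0 : ℚ_[ℓ]) = ((ℓ : ℚ_[ℓ]) ^ k)⁻¹ * (qm (β (σ k)) a b -
      (1 : Matrix (Fin n) (Fin n) ℚ_[ℓ]) a b)
    rw [qm_BD hc (σ k) a b hab, Matrix.one_apply_ne (fun h => hab (congrArg c h)), sub_zero,
      mul_zero]

section mtc
variable [TopologicalSpace Γ] [IsTopologicalGroup Γ] [CompactSpace Γ]

/-- the conjecture for the sum with algebraic classes -/
theorem mtcN_of_joint {κ : Type} [Fintype κ] [DecidableEq κ] {v : Γ →* Matrix κ κ ℚ_[ℓ]}
    (hB : T.Big c p q) (hv : Continuous v) (hvf : (Set.range v).Finite) (hβ : Continuous β)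
    (hg : GalT c T.Q β) (hc : ∀ σ, BD c (β σ))
    (h : ∀ X, (∀ i, SpLie (sb c i (Ql ℓ T)) (X i)) → JTan ℓ (fun i => blk hc i) X) :
    MTC (hM (fun _ => (1 : Matrix κ κ ℂ)) T) (tot v β) := by
  have hcont : Continuous (tot v β) := by
    show Continuous fun s => (fromBlocks (v s) 0 0 (qm (β s)) :
      Matrix (κ ⊕ Fin n) (κ ⊕ Fin n) ℚ_[ℓ])
    exact hv.matrix_fromBlocks continuous_const continuous_const (continuous_qm.comp hβ)
  have htan : TanIn c T v β :=
    tanIn_of_finite (continuous_qm.comp hβ) hv hvf fun X hX hXb =>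
      tan_of_joint hc hB.bQ h X hX hXb
  have hso : SoIn c T v β := soIn_of_tan hB.bQ hcont htan
  exact (main' hB (fun _ _ => by rw [Matrix.det_one]; exact one_ne_zero) star_N hg hso).2
    (MTC_N hvf)

/-- the conjecture for `T` -/
theorem mtcT_of_joint (hB : T.Big c p q) (hβ : Continuous β) (hg : GalT c T.Q β)
    (hc : ∀ σ, BD c (β σ))
    (h : ∀ X, (∀ i, SpLie (sb c i (Ql ℓ T)) (X i)) → JTan ℓ (fun i => blk hc i) X) :
    MTC (hT T) (qrep β) :=
  mtcT_of_tot (mtcN_of_joint (v := (1 : Γ →* Matrix (Fin 0) (Fin 0) ℚ_[ℓ])) hB continuous_const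
    (Set.finite_range_const (c := (1 : Matrix (Fin 0) (Fin 0) ℚ_[ℓ])) |>.subset (by
      rintro _ ⟨s, rfl⟩
      exact ⟨s, rfl⟩)) hβ hg hc h)

/-- from the sum to `T` -/
theorem mtcT_of_mtcN {κ : Type} [Fintype κ] [DecidableEq κ] {v : Γ →* Matrix κ κ ℚ_[ℓ]}
    (hB : T.Big c p q) (hg : GalT c T.Q β)
    (h : MTC (hM (fun _ => (1 : Matrix κ κ ℂ)) T) (tot v β)) : MTC (hT T) (qrep β) := by
  obtain ⟨e⟩ := exists_emb ℓ
  rw [mtcT_iff hB hg]
  intro g hgs
  have hd := InSO_det (Pool.Agent.W74.PG.det_ne T) hgs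
  refine InG0_snd (v := v) ?_
  refine (h _ (by rw [fb_det, Matrix.det_one, one_mul]; exact hd)).2 ?_
  rw [InMT_iff (c := c) hB (fun _ _ => by rw [Matrix.det_one]; exact one_ne_zero) star_N e
    (by rw [fb_det, Matrix.det_one, one_mul]; exact hd), Matrix.toBlocks_fromBlocks₁₁,
    Matrix.toBlocks_fromBlocks₂₂]
  exact ⟨rfl, InMT_one e _, hgs⟩

/-- the commutants are scalar if the conjecture holds -/
theorem sc_of_mtc (hB : T.Big c p q) (hg : GalT c T.Q β) (hc : ∀ σ, BD c (β σ))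
    (h : MTC (hT T) (qrep β)) (i : Fin r) (hi : 3 ≤ Nb c i) : SC (blk hc i) := by
  intro A U hU hcomm
  have hfin : U.FiniteIndex := by
    have := U.quotient_finite_of_isOpen hU
    exact Subgroup.finiteIndex_of_finite_quotient
  have hG := (mtcT_iff hB hg).1 h
  -- the matrix commutes with all isometries of determinant one
  have hiso : ∀ t : Matrix (Fin (Nb c i)) (Fin (Nb c i)) ℚ_[ℓ],
      tᵀ * sb c i (Ql ℓ T) * t = sb c i (Ql ℓ T) → t.det = 1 → A * t = t * A := by
    intro t ht htd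
    obtain ⟨al, hal⟩ : ∃ al, al = algebraMap ℚ_[ℓ] (AlgebraicClosure ℚ_[ℓ]) := ⟨_, rfl⟩
    set Y : ∀ j, Matrix (Fin (Nb c j)) (Fin (Nb c j)) ℚ_[ℓ] :=
      Function.update (fun j => 1) i t with hY
    have hYi : Y i = t := by rw [hY, Function.update_self]
    have hYj : ∀ j, j ≠ i → Y j = 1 := fun j hj => by rw [hY, Function.update_of_ne hj]
    set g := un Y with hgdef
    have hgb : BD c g := un_BD Y
    have hgQ : gᵀ * Ql ℓ T * g = Ql ℓ T := by
      have hgt := BD_transpose hgb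
      have h2 : BD c (gᵀ * Ql ℓ T) := by
        intro a b hab
        rw [Matrix.mul_apply]
        refine Finset.sum_eq_zero fun d _ => ?_
        by_cases hd : c a = c d
        · rw [Ql_BD hB.bQ d b (by rw [← hd]; exact hab), mul_zero]
        · rw [hgt a d hd, zero_mul]
      have h3 : BD c (gᵀ * Ql ℓ T * g) := by
        intro a b hab
        rw [Matrix.mul_apply]
        refine Finset.sum_eq_zero fun d _ => ?_
        by_cases hd : c a = c d
        · rw [hgb d b (by rw [← hd]; exact hab), mul_zero]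
        · rw [h2 a d hd, zero_mul]
      refine ext_sb h3 (Ql_BD hB.bQ) fun j => ?_
      rw [sb_mul h2, sb_mul hgt, sb_transpose, hgdef, sb_un]
      by_cases hj : j = i
      · subst hj
        rw [hYi]
        exact ht
      · rw [hYj j hj, transpose_one, one_mul, mul_one]
    have hgSO : InSO c T.Q (g.map al) := by
      refine ⟨?_, ?_, ?_⟩
      · have h1 : (gᵀ * Ql ℓ T * g).map al = (Ql ℓ T).map al := by rw [hgQ]
        rw [Matrix.map_mul, Matrix.map_mul, Matrix.transpose_map] at h1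
        have h2 : (Ql ℓ T).map al = T.Q.map (algebraMap ℚ (AlgebraicClosure ℚ_[ℓ])) := by
          unfold Ql
          rw [Matrix.map_map]
          congr 1
          funext x
          rw [hal]
          exact (IsScalarTower.algebraMap_apply ℚ ℚ_[ℓ] (AlgebraicClosure ℚ_[ℓ]) x).symm
        rw [h2] at h1
        exact h1
      · intro a b hab
        rw [Matrix.map_apply, hgb a b hab, map_zero]
      · intro j
        rw [det_bl, sb_map, ← RingHom.mapMatrix_apply, ← RingHom.map_det, hgdef, sb_un]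
        by_cases hj : j = i
        · subst hj
          rw [hYi, htd, map_one]
        · rw [hYj j hj, det_one, map_one]
    have hin := hG _ hgSO
    -- polynomials
    set XM : Matrix (Fin n) (Fin n) (MvPolynomial (Fin n × Fin n) (AlgebraicClosure ℚ_[ℓ])) :=
      Matrix.of fun a b => MvPolynomial.X (a, b) with hXM
    set A' : Matrix (Fin (Nb c i)) (Fin (Nb c i))
      (MvPolynomial (Fin n × Fin n) (AlgebraicClosure ℚ_[ℓ])) :=
      A.map (fun x => MvPolynomial.C (al x)) with hA'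
    have hev : ∀ (m : Matrix (Fin n) (Fin n) (AlgebraicClosure ℚ_[ℓ])) (x y : Fin (Nb c i)),
        MvPolynomial.aeval (fun q : Fin n × Fin n => m q.1 q.2)
          ((A' * sb c i XM - sb c i XM * A') x y) =
        (A.map al * sb c i m - sb c i m * A.map al) x y := by
      intro m x y
      rw [Matrix.sub_apply, Matrix.sub_apply, map_sub, Matrix.mul_apply, Matrix.mul_apply,
        Matrix.mul_apply, Matrix.mul_apply, map_sum, map_sum]
      congr 1
      · refine Finset.sum_congr rfl fun z _ => ?_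
        rw [map_mul]
        congr 1
        · show MvPolynomial.aeval _ (MvPolynomial.C (al (A x z))) = al (A x z)
          rw [MvPolynomial.aeval_C]
          rfl
        · show MvPolynomial.aeval _ (MvPolynomial.X _) = _
          rw [MvPolynomial.aeval_X]
          rfl
      · refine Finset.sum_congr rfl fun z _ => ?_
        rw [map_mul]
        congr 1
        · show MvPolynomial.aeval _ (MvPolynomial.X _) = _
          rw [MvPolynomial.aeval_X]
          rfl
        · show MvPolynomial.aeval _ (MvPolynomial.C (al (A z y))) = al (A z y)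
          rw [MvPolynomial.aeval_C]
          rfl
    have hzero : ∀ x y : Fin (Nb c i), (A.map al * sb c i (g.map al) -
        sb c i (g.map al) * A.map al) x y = 0 := by
      intro x y
      rw [← hev]
      refine hin _ ⟨U, hfin, fun σ hσ => ?_⟩
      have h1 := hev ((qm (β σ)).map al) x y
      have h2 : A.map al * sb c i ((qm (β σ)).map al) - sb c i ((qm (β σ)).map al) * A.map al =
          0 := by
        rw [sb_map, ← Matrix.map_mul, ← Matrix.map_mul]
        have h3 : A * sb c i (qm (β σ)) = sb c i (qm (β σ)) * A := hcomm σ hσ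
        rw [h3, sub_self]
      rw [h2] at h1
      rw [hal] at h1
      exact h1
    have h5 : (A * t).map al = (t * A).map al := by
      rw [Matrix.map_mul, Matrix.map_mul]
      have h6 : sb c i (g.map al) = t.map al := by
        rw [sb_map, hgdef, sb_un, hYi]
      rw [h6] at hzero
      ext x y
      have h7 := hzero x y
      rw [Matrix.sub_apply, sub_eq_zero] at h7
      exact h7
    ext x y
    have h6 := congrFun (congrFun h5 x) y
    rw [Matrix.map_apply, Matrix.map_apply] at h6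
    exact al.injective h6
  refine scalar_of_skew hi (sb_Ql_symm i) (sb_Ql_det hB.bQ i) fun X hX => ?_
  obtain ⟨t, ht, htd, htl⟩ := Pool.Agent.R932.GR.cay_seq (J := sb c i (Ql ℓ T))
    (Or.inl (sb_Ql_symm i)) (sb_Ql_det hB.bQ i) hX
  have : T2Space (Matrix (Fin (Nb c i)) (Fin (Nb c i)) ℚ_[ℓ]) :=
    inferInstanceAs (T2Space (Fin (Nb c i) → Fin (Nb c i) → ℚ_[ℓ]))
  have h1 : Tendsto (fun k : ℕ => A * (((ℓ : ℚ_[ℓ]) ^ k)⁻¹ • (t k - 1))) atTop (𝓝 (A * X)) :=
    Tendsto.mul tendsto_const_nhds htl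
  have h2 : Tendsto (fun k : ℕ => (((ℓ : ℚ_[ℓ]) ^ k)⁻¹ • (t k - 1)) * A) atTop (𝓝 (X * A)) :=
    Tendsto.mul htl tendsto_const_nhds
  refine tendsto_nhds_unique h1 (h2.congr fun k => ?_)
  rw [Matrix.smul_mul, Matrix.mul_smul, sub_mul, mul_sub, hiso (t k) (ht k) (htd k), one_mul,
    mul_one]

end mtc

end

end Pool.Agent.V5helper94.MT
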