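import Pool.Agent.R932.MtIndMain
import Pool.Agent.R932.PO.Stm

/-!
# The blocks of a block diagonal matrix
-/

set_option autoImplicit false
set_option linter.unusedSectionVars false

namespace Pool.Agent.V5helper94.MT

open Matrix Filter Topology
open Pool.Agent.W544.PG (HS BD bl mC)
open Pool.Agent.Y95.MT (InSO GalT)
open Pool.Agent.R932.PO (JTan)
open Pool.Agent.Y142.ZS (Sim SpLie)

noncomputable section

variable {n r : ℕ} (c : Fin n → Fin r)

/-- the size of a block -/
def Nb (i : Fin r) : ℕ := Fintype.card {a : Fin n // c a = i}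

/-- the indices of a block -/
def eb (i : Fin r) : Fin (Nb c i) ≃ {a : Fin n // c a = i} := (Fintype.equivFin _).symm

/-- a block -/
def sb {R : Type} (i : Fin r) (A : Matrix (Fin n) (Fin n) R) :
    Matrix (Fin (Nb c i)) (Fin (Nb c i)) R :=
  A.submatrix (fun a => (eb c i a).1) (fun a => (eb c i a).1)

theorem sb_eq {R : Type} (i : Fin r) (A : Matrix (Fin n) (Fin n) R) :
    sb c i A = (A.toSquareBlock c i).submatrix (eb c i) (eb c i) := rfl

variable {c}

theorem sb_transpose {R : Type} (i : Fin r) (A : Matrix (Fin n) (Fin n) R) :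
    sb c i Aᵀ = (sb c i A)ᵀ := rfl

theorem sb_map {R R' : Type} (i : Fin r) (f : R → R') (A : Matrix (Fin n) (Fin n) R) :
    sb c i (A.map f) = (sb c i A).map f := rfl

theorem sb_add {R : Type} [Add R] (i : Fin r) (A B : Matrix (Fin n) (Fin n) R) :
    sb c i (A + B) = sb c i A + sb c i B := rfl

theorem sb_zero {R : Type} [Zero R] (i : Fin r) : sb c i (0 : Matrix (Fin n) (Fin n) R) = 0 := rfl

theorem sb_sub {R : Type} [Sub R] (i : Fin r) (A B : Matrix (Fin n) (Fin n) R) :
    sb c i (A - B) = sb c i A - sb c i B := rfl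

theorem sb_smul {R : Type} [Mul R] (i : Fin r) (z : R) (A : Matrix (Fin n) (Fin n) R) :
    sb c i (z • A) = z • sb c i A := rfl

theorem sb_one {R : Type} [Zero R] [One R] (i : Fin r) :
    sb c i (1 : Matrix (Fin n) (Fin n) R) = 1 := by
  unfold sb
  exact Matrix.submatrix_one _ (Subtype.val_injective.comp (eb c i).injective)

theorem sum_block {R : Type} [AddCommMonoid R] (i : Fin r) (f : Fin n → R)
    (h : ∀ a, c a ≠ i → f a = 0) : ∑ a, f a = ∑ a : Fin (Nb c i), f (eb c i a).1 := by
  classical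
  rw [Equiv.sum_comp (eb c i) fun a => f a.1, ← Finset.sum_filter_of_ne (p := fun a => c a = i)]
  · exact Finset.sum_subtype _ (fun a => by simp) _
  · intro a _ ha
    by_contra hc
    exact ha (h a hc)

theorem sb_mul {R : Type} [Ring R] {A : Matrix (Fin n) (Fin n) R} (hA : BD c A) (i : Fin r)
    (B : Matrix (Fin n) (Fin n) R) : sb c i (A * B) = sb c i A * sb c i B := by
  ext x y
  show (A * B) _ _ = _
  rw [Matrix.mul_apply, Matrix.mul_apply]
  rw [sum_block (c := c) i _ fun a ha => ?_]
  · rfl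
  · rw [hA _ _ (fun h => ha (by rw [← h]; exact (eb c i x).2)), zero_mul]

/-- the block diagonal matrix with given blocks -/
def un {R : Type} [Zero R] (X : ∀ i, Matrix (Fin (Nb c i)) (Fin (Nb c i)) R) :
    Matrix (Fin n) (Fin n) R :=
  Matrix.of fun a b => if h : c b = c a then
    X (c a) ((eb c (c a)).symm ⟨a, rfl⟩) ((eb c (c a)).symm ⟨b, h⟩) else 0

theorem un_BD {R : Type} [Zero R] (X : ∀ i, Matrix (Fin (Nb c i)) (Fin (Nb c i)) R) :
    BD c (un X) := by
  intro a b hab
  unfold un
  rw [Matrix.of_apply, dif_neg (Ne.symm hab)]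

theorem sb_un {R : Type} [Zero R] (X : ∀ i, Matrix (Fin (Nb c i)) (Fin (Nb c i)) R) (i : Fin r) :
    sb c i (un X) = X i := by
  ext x y
  obtain ⟨a, rfl⟩ := (eb c i).symm.surjective x
  obtain ⟨b, rfl⟩ := (eb c i).symm.surjective y
  show un X (eb c i ((eb c i).symm a)).1 (eb c i ((eb c i).symm b)).1 = _
  rw [Equiv.apply_symm_apply, Equiv.apply_symm_apply]
  obtain ⟨a, rfl⟩ := a
  obtain ⟨b, hb'⟩ := b
  show (if h : c b = c a then
    X (c a) ((eb c (c a)).symm ⟨a, rfl⟩) ((eb c (c a)).symm ⟨b, h⟩) else 0) = _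
  rw [dif_pos hb']

/-- a block diagonal matrix is determined by its blocks -/
theorem ext_sb {R : Type} [Zero R] {A B : Matrix (Fin n) (Fin n) R} (hA : BD c A) (hB : BD c B)
    (h : ∀ i, sb c i A = sb c i B) : A = B := by
  ext a b
  by_cases hab : c a = c b
  · have h1 := congrFun (congrFun (h (c b)) ((eb c (c b)).symm ⟨a, hab⟩)) ((eb c (c b)).symm ⟨b, rfl⟩)
    unfold sb at h1
    rw [Matrix.submatrix_apply, Matrix.submatrix_apply, Equiv.apply_symm_apply,
      Equiv.apply_symm_apply] at h1
    exact h1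
  · rw [hA a b hab, hB a b hab]

theorem sb_det_ne {K : Type} [Field K] {A : Matrix (Fin n) (Fin n) K} (hA : BD c A)
    (hd : A.det ≠ 0) (i : Fin r) : (sb c i A).det ≠ 0 := by
  have h1 := sb_mul hA i A⁻¹
  rw [Matrix.mul_nonsing_inv _ (isUnit_iff_ne_zero.2 hd), sb_one] at h1
  intro h0
  have h2 := congrArg Matrix.det h1
  rw [Matrix.det_one, Matrix.det_mul, h0, zero_mul] at h2
  exact one_ne_zero h2

theorem det_bl {R : Type} [CommRing R] (i : Fin r) (A : Matrix (Fin n) (Fin n) R) :
    (bl c i A).det = (sb c i A).det := by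
  classical
  rw [Matrix.twoBlockTriangular_det _ (fun a => c a = i)]
  · have h1 : (bl c i A).toSquareBlockProp (fun a => ¬ c a = i) = 1 := by
      ext a b
      rw [Matrix.toSquareBlockProp_def, Matrix.of_apply]
      unfold bl
      rw [Matrix.of_apply]
      rw [if_neg fun h => a.2 h.1]
      by_cases hab : a = b
      · subst hab
        rw [Matrix.one_apply_eq, if_pos rfl]
      · rw [Matrix.one_apply_ne hab, if_neg fun h => hab (Subtype.ext h)]
    have h2 : (bl c i A).toSquareBlockProp (fun a => c a = i) = A.toSquareBlock c i := by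
      ext a b
      rw [Matrix.toSquareBlockProp_def, Matrix.of_apply]
      unfold bl
      rw [Matrix.of_apply, if_pos ⟨a.2, b.2⟩]
      rfl
    rw [h1, h2, Matrix.det_one, mul_one, sb_eq]
    exact (Matrix.det_submatrix_equiv_self (eb c i) _).symm
  · intro a ha b hb
    unfold bl
    rw [Matrix.of_apply, if_neg fun h => ha h.1, if_neg]
    rintro rfl
    exact ha hb

theorem charpoly_sb {R : Type} [CommRing R] (i : Fin r) (A : Matrix (Fin n) (Fin n) R) :
    (sb c i A).charpoly = (A.toSquareBlock c i).charpoly := by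
  rw [sb_eq]
  exact Matrix.charpoly_reindex (eb c i).symm (A.toSquareBlock c i)

end

end Pool.Agent.V5helper94.MT
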