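import Pool.Agent.V5helper94.MT.Blk

/-!
# Every prime, from the Frobenius polynomials over one prime
-/

set_option autoImplicit false
set_option linter.unusedSectionVars false

namespace Pool.Agent.V5helper94.MT

open Matrix Filter Topology Polynomial NumberField IsDedekindDomain Module
open Pool.Agent.W544.PG (HS BD bl mC)
open Pool.Agent.Y95.MT
open Pool.Agent.R932
open Pool.Agent.R932.PO (JTan)
open Pool.Agent.R932.EV (SS SC)
open Pool.Agent.Y142.ZS (Sim SpLie)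
open Pool.Agent.Y142.ZO (GK IsFrobenius)
open Pool.Agent.Y142 (IsoRel)

noncomputable section

variable {K : Type} [Field K] [NumberField K] {ℓ : ℕ} [hℓ : Fact ℓ.Prime] {n r : ℕ}
  {c : Fin n → Fin r} {T : HS n} {p q : Fin r → ℕ}
  {Γ : Type} [Group Γ] [TopologicalSpace Γ] [IsTopologicalGroup Γ] [CompactSpace Γ]
  {β : Γ →* Matrix (Fin n) (Fin n) ℤ_[ℓ]} {s : GK K →* Γ}

/-- the data at the places above the prime `p₀` -/
structure Data (S : Set (HeightOneSpectrum (𝓞 K))) (R : Fin r → HeightOneSpectrum (𝓞 K) → ℤ[X])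
    (p₀ : ℕ) (v : Fin (finrank ℚ K) → HeightOneSpectrum (𝓞 K)) : Prop where
  fin : S.Finite
  mon : ∀ i, ∀ v ∉ S, (R i v).Monic
  pure : ∀ i, ∀ v ∉ S, ∀ z : ℂ, aeval z (R i v) = 0 → ‖z‖ = (Ideal.absNorm v.asIdeal : ℝ)
  prime : p₀.Prime
  inj : Function.Injective v
  norm : ∀ a, Ideal.absNorm (v a).asIdeal = p₀
  good : ∀ a, v a ∉ S
  sep : ∀ a i, ((R i (v a)).map (Int.castRingHom ℚ)).Separable
  neg : ∀ a i, (R i (v a)).eval (-(p₀ : ℤ)) ≠ 0
  triv : Triv (fun x : Fin (finrank ℚ K) × Fin r => tw p₀ (R x.2 (v x.1)))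

section
variable {S : Set (HeightOneSpectrum (𝓞 K))} {R : Fin r → HeightOneSpectrum (𝓞 K) → ℤ[X]}
  {p₀ : ℕ} {v : Fin (finrank ℚ K) → HeightOneSpectrum (𝓞 K)}

theorem Data.pol (h : Data S R p₀ v) (a : Fin (finrank ℚ K)) (i : Fin r) :
    Pol (tw p₀ (R i (v a))) :=
  tw_pol h.prime.pos (h.mon i _ (h.good a)) (h.sep a i)
    (fun z hz => by rw [h.pure i _ (h.good a) z hz, h.norm a]) (h.neg a i)

theorem Data.mem (h : Data S R p₀ v) (a : Fin (finrank ℚ K)) : (p₀ : 𝓞 K) ∈ (v a).asIdeal := by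
  rw [← h.norm a]
  exact Ideal.absNorm_mem _

theorem Data.notMem (h : Data S R p₀ v) (hpl : p₀ ≠ ℓ) (a : Fin (finrank ℚ K)) :
    (ℓ : 𝓞 K) ∉ (v a).asIdeal := by
  intro hl
  have h1 : IsCoprime (p₀ : ℤ) (ℓ : ℤ) :=
    Nat.isCoprime_iff_coprime.2 ((Nat.coprime_primes h.prime hℓ.out).2 hpl)
  obtain ⟨x, y, hxy⟩ := h1
  apply (v a).isPrime.ne_top
  rw [Ideal.eq_top_iff_one]
  have h2 := congrArg (fun t : ℤ => (t : 𝓞 K)) hxy
  simp only [Int.cast_add, Int.cast_mul, Int.cast_natCast, Int.cast_one] at h2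
  rw [← h2]
  exact Ideal.add_mem _ (Ideal.mul_mem_left _ _ (h.mem a)) (Ideal.mul_mem_left _ _ hl)

/-- the Frobenius polynomials of the blocks -/
def Frob (s : GK K →* Γ) (S : Set (HeightOneSpectrum (𝓞 K)))
    (R : Fin r → HeightOneSpectrum (𝓞 K) → ℤ[X]) (hc : ∀ σ, BD c (β σ)) : Prop :=
  ∀ i, ∀ v ∉ S, (ℓ : 𝓞 K) ∉ v.asIdeal → ∀ σ : GK K, IsFrobenius v σ →
    ((Ideal.absNorm v.asIdeal : ℚ_[ℓ]) • blk hc i (s σ⁻¹)).charpoly =
      (R i v).map (algebraMap ℤ ℚ_[ℓ])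

/-- semisimplicity of the blocks -/
theorem Data.ss (h : Data S R p₀ v) (hs : Continuous s) (hβ : Continuous β) (hg : GalT c T.Q β)
    (hc : ∀ σ, BD c (β σ)) (hbQ : BD c T.Q) (hF : Frob s S R hc) (hpl : p₀ ≠ ℓ) (i : Fin r)
    (U : Submodule ℚ_[ℓ] (Fin (Nb c i) → ℚ_[ℓ])) (hU : ∀ g : Γ, ∀ x ∈ U, blk hc i g *ᵥ x ∈ U) :
    IsCompl U ((Matrix.toBilin' (sb c i (Ql ℓ T))).orthogonal U) ∧
      ∀ g : Γ, ∀ x ∈ (Matrix.toBilin' (sb c i (Ql ℓ T))).orthogonal U,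
        blk hc i g *ᵥ x ∈ (Matrix.toBilin' (sb c i (Ql ℓ T))).orthogonal U := by
  refine ss_of s hs (blk hc i) (blk_cont hβ hc i) (sb c i (Ql ℓ T)) (sb_Ql_symm i)
    (sb_Ql_det hbQ i) (blk_form hg hc hbQ i) h.fin (R i) (fun v hv => ⟨h.mon i v hv, h.pure i v hv⟩)
    (hF i) h.prime hpl v h.inj (fun a => ⟨h.mem a, h.good a⟩) (fun d hd => ?_) U hU
  have hK : 0 < finrank ℚ K := finrank_pos
  exact no_iso (F := fun x : Fin (finrank ℚ K) × Fin r => tw p₀ (R x.2 (v x.1))) h.triv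
    h.prime.pos hK i (fun a => h.mon i _ (h.good a)) (fun a => rfl) (fun a => h.pol a i) hd

theorem Data.SS (h : Data S R p₀ v) (hs : Continuous s) (hβ : Continuous β) (hg : GalT c T.Q β)
    (hc : ∀ σ, BD c (β σ)) (hbQ : BD c T.Q) (hF : Frob s S R hc) (hpl : p₀ ≠ ℓ) (i : Fin r) :
    SS (blk hc i) := fun U hU => by
  obtain ⟨h1, h2⟩ := h.ss hs hβ hg hc hbQ hF hpl i U hU
  exact ⟨_, h1, h2⟩

theorem Data.frob_tw (h : Data S R p₀ v) (hc : ∀ σ, BD c (β σ)) (hF : Frob s S R hc)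
    (hpl : p₀ ≠ ℓ) (a : Fin (finrank ℚ K)) (i : Fin r) {σ : GK K} (hσ : IsFrobenius (v a) σ) :
    (blk hc i (s σ⁻¹)).charpoly = (tw p₀ (R i (v a))).map (algebraMap ℚ ℚ_[ℓ]) := by
  have h1 := hF i (v a) (h.good a) (h.notMem hpl a) σ hσ
  rw [h.norm a] at h1
  exact charpoly_tw h.prime.pos (h.mon i _ (h.good a)) h1

/-- the joint Lie algebra is full if the commutants are scalar -/
theorem Data.joint (h : Data S R p₀ v) (hs : Continuous s) (hβ : Continuous β)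
    (hg : GalT c T.Q β) (hc : ∀ σ, BD c (β σ)) (hbQ : BD c T.Q) (hrk : ∀ i, 5 ≤ Nb c i)
    (hF : Frob s S R hc) (hpl : p₀ ≠ ℓ) (hsc : ∀ i, SC (blk hc i))
    (X : ∀ i, Matrix (Fin (Nb c i)) (Fin (Nb c i)) ℚ_[ℓ])
    (hX : ∀ i, SpLie (sb c i (Ql ℓ T)) (X i)) : JTan ℓ (fun i => blk hc i) X := by
  have hK : 0 < finrank ℚ K := finrank_pos
  refine joint_of_sc hrk s (fun i => blk hc i) (fun i => blk_cont hβ hc i)
    (fun i => sb c i (Ql ℓ T)) (fun i => sb_Ql_symm i) (fun i => sb_Ql_det hbQ i)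
    (fun i => blk_form hg hc hbQ i) h.triv (fun i => (⟨0, hK⟩, i)) (fun i j hij => ?_)
    (fun i => h.pol ⟨0, hK⟩ i) (v ⟨0, hK⟩) (fun i σ hσ => h.frob_tw hc hF hpl ⟨0, hK⟩ i hσ)
    (fun i => h.SS hs hβ hg hc hbQ hF hpl i) hsc X hX
  exact congrArg Prod.snd hij

/-- **the conjecture for `T` and the commutants** -/
theorem Data.mtcT (h : Data S R p₀ v) (hs : Continuous s) (hβ : Continuous β)
    (hg : GalT c T.Q β) (hc : ∀ σ, BD c (β σ)) (hB : T.Big c p q) (hrk : ∀ i, 5 ≤ Nb c i)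
    (hF : Frob s S R hc) (hpl : p₀ ≠ ℓ) :
    MTC (hT T) (qrep β) ↔ ∀ i, SC (blk hc i) := by
  constructor
  · intro h1 i
    exact sc_of_mtc hB hg hc h1 i (by have := hrk i; omega)
  · intro hsc
    exact mtcT_of_joint hB hβ hg hc (h.joint hs hβ hg hc hB.bQ hrk hF hpl hsc)

/-- **the conjecture for the sum with algebraic classes and the commutants** -/
theorem Data.mtcN {κ : Type} [Fintype κ] [DecidableEq κ] {α : Γ →* Matrix κ κ ℚ_[ℓ]}
    (h : Data S R p₀ v) (hs : Continuous s) (hα : Continuous α) (hαf : (Set.range α).Finite)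
    (hβ : Continuous β) (hg : GalT c T.Q β) (hc : ∀ σ, BD c (β σ)) (hB : T.Big c p q)
    (hrk : ∀ i, 5 ≤ Nb c i) (hF : Frob s S R hc) (hpl : p₀ ≠ ℓ) :
    MTC (hM (fun _ => (1 : Matrix κ κ ℂ)) T) (tot α β) ↔ ∀ i, SC (blk hc i) := by
  constructor
  · intro h1
    exact (h.mtcT hs hβ hg hc hB hrk hF hpl).1 (mtcT_of_mtcN hB hg h1)
  · intro hsc
    exact mtcN_of_joint hB hα hαf hβ hg hc (h.joint hs hβ hg hc hB.bQ hrk hF hpl hsc)

end

/-- an eigenvector of a block -/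
theorem ind_block {κ : Type} [Fintype κ] [DecidableEq κ] (hc : ∀ σ, BD c (β σ)) (i : Fin r)
    (γ : Γ) {A : Matrix κ κ (AlgebraicClosure ℚ_[ℓ])}
    (h : Ind A ((blk hc i γ).map (algebraMap ℚ_[ℓ] (AlgebraicClosure ℚ_[ℓ]))) ⊤) :
    Ind A ((qm (β γ)).map (algebraMap ℚ_[ℓ] (AlgebraicClosure ℚ_[ℓ])))
      (col c i : Submodule (AlgebraicClosure ℚ_[ℓ]) (Fin n → AlgebraicClosure ℚ_[ℓ])) := by
  obtain ⟨x, ⟨w, -, hw0, hw⟩, hx⟩ := h
  refine ⟨x, ⟨fun a => if h : c a = i then w ((eb c i).symm ⟨a, h⟩) else 0, ?_, ?_, ?_⟩, hx⟩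
  · intro a ha
    show (if h : c a = i then w ((eb c i).symm ⟨a, h⟩) else 0) = 0
    rw [dif_neg ha]
  · intro h0
    apply hw0
    funext y
    have h1 : (if h : c (eb c i y).1 = i then w ((eb c i).symm ⟨(eb c i y).1, h⟩) else 0) = 0 :=
      congrFun h0 (eb c i y).1
    rw [dif_pos (eb c i y).2] at h1
    have h2 : (eb c i).symm ⟨(eb c i y).1, (eb c i y).2⟩ = y := by
      rw [Subtype.coe_eta, Equiv.symm_apply_apply]
    rw [h2] at h1
    exact h1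
  · funext a
    rw [Matrix.mulVec, dotProduct, sum_block (c := c) i _ fun b hb => by rw [dif_neg hb, mul_zero]]
    rw [Pi.smul_apply]
    have hval : ∀ y : Fin (Nb c i), (if h : c (eb c i y).1 = i then
        w ((eb c i).symm ⟨(eb c i y).1, h⟩) else 0) = w y := by
      intro y
      rw [dif_pos (eb c i y).2, Subtype.coe_eta, Equiv.symm_apply_apply]
    rw [Finset.sum_congr rfl fun y _ => by rw [hval y]]
    by_cases ha : c a = i
    · rw [dif_pos ha]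
      have h1 := congrFun hw ((eb c i).symm ⟨a, ha⟩)
      rw [Pi.smul_apply] at h1
      rw [← h1, Matrix.mulVec, dotProduct]
      refine Finset.sum_congr rfl fun y _ => ?_
      congr 1
      show _ = algebraMap ℚ_[ℓ] (AlgebraicClosure ℚ_[ℓ])
        (qm (β γ) (eb c i ((eb c i).symm ⟨a, ha⟩)).1 (eb c i y).1)
      rw [Equiv.apply_symm_apply]
      rfl
    · rw [dif_neg ha, smul_zero]
      refine Finset.sum_eq_zero fun y _ => ?_
      rw [Matrix.map_apply, qm_BD hc γ a (eb c i y).1 (fun h => ha (by rw [h]; exact (eb c i y).2)),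
        map_zero, zero_mul]

end

end Pool.Agent.V5helper94.MT
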