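import Pool.Agent.Y142.Rel

/-!
# Families of Frobenius polynomials of weight zero with only trivial multiplicative relations
-/

set_option autoImplicit false
set_option linter.unusedSectionVars false

namespace Pool.Agent.V5helper94.MT

open Polynomial

/-- the complex roots -/
noncomputable def cr (f : ℚ[X]) : Finset ℂ := (f.aroots ℂ).toFinset

theorem mem_cr {f : ℚ[X]} (hf : f ≠ 0) {z : ℂ} : z ∈ cr f ↔ aeval z f = 0 := by
  unfold cr
  rw [Multiset.mem_toFinset, mem_aroots]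
  exact ⟨fun h => h.2, fun h => ⟨hf, h⟩⟩

/-- the only multiplicative relations between the roots of the polynomials `F j` are those which follow
from `z * z⁻¹ = 1` -/
def Triv {J : Type} [Fintype J] (F : J → ℚ[X]) : Prop :=
  ∀ k : J → ℂ → ℤ, ∏ j, ∏ z ∈ cr (F j), z ^ k j z = 1 →
    ∀ j, ∀ z ∈ cr (F j), k j z = k j z⁻¹

/-- the properties of the Frobenius polynomials -/
structure Pol (f : ℚ[X]) : Prop where
  monic : f.Monic
  sep : f.Separable
  pure : ∀ z : ℂ, aeval z f = 0 → ‖z‖ = 1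
  neg : f.eval (-1) ≠ 0

section
variable {f : ℚ[X]} (hf : Pol f)
include hf

theorem Pol.ne_zero : f ≠ 0 := hf.monic.ne_zero

theorem Pol.root_ne {z : ℂ} (hz : aeval z f = 0) : z ≠ 0 := by
  rintro rfl
  have := hf.pure 0 hz
  rw [norm_zero] at this
  exact zero_ne_one this

theorem Pol.conj {z : ℂ} (hz : aeval z f = 0) : z⁻¹ = (starRingEnd ℂ) z := by
  have h1 := hf.pure z hz
  rw [Complex.inv_def, Complex.normSq_eq_norm_sq, h1]
  norm_num

theorem Pol.inv {z : ℂ} (hz : aeval z f = 0) : aeval z⁻¹ f = 0 := by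
  rw [hf.conj hz]
  have h1 : aeval ((starRingEnd ℂ) z) f = (starRingEnd ℂ) (aeval z f) := by
    have h2 : (starRingEnd ℂ).comp (algebraMap ℚ ℂ) = algebraMap ℚ ℂ := Subsingleton.elim _ _
    rw [aeval_def, aeval_def, hom_eval₂, h2]
  rw [h1, hz, map_zero]

theorem Pol.inv_mem {z : ℂ} (hz : z ∈ cr f) : z⁻¹ ∈ cr f := by
  rw [mem_cr hf.ne_zero] at hz ⊢
  exact hf.inv hz

theorem Pol.ne_neg {z : ℂ} (hz : aeval z f = 0) : z ≠ -1 := by
  rintro rfl
  apply hf.neg
  have h1 : aeval (-1 : ℂ) f = ((f.eval (-1) : ℚ) : ℂ) := by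
    have h2 : (-1 : ℂ) = algebraMap ℚ ℂ (-1) := by simp
    rw [h2, aeval_algebraMap_apply, coe_aeval_eq_eval]
    rfl
  rw [h1] at hz
  exact_mod_cast hz

theorem Pol.eq_one {z : ℂ} (hz : aeval z f = 0) (h : z = z⁻¹) : z = 1 := by
  have h0 := hf.root_ne hz
  have h1 : z * z = 1 := by
    nth_rewrite 2 [h]
    exact mul_inv_cancel₀ h0
  rcases mul_self_eq_one_iff.1 h1 with h2 | h2
  · exact h2
  · exact absurd h2 (hf.ne_neg hz)

theorem Pol.card : (cr f).card = f.natDegree := by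
  unfold cr
  rw [Multiset.toFinset_card_of_nodup (nodup_roots hf.sep.map),
    ← (IsAlgClosed.splits (f.map (algebraMap ℚ ℂ))).natDegree_eq_card_roots, natDegree_map]

/-- a polynomial of odd degree has the root `1` -/
theorem Pol.one_root (hodd : Odd f.natDegree) : f.eval 1 = 0 := by
  by_contra hne
  have h1 : ∀ z ∈ cr f, z⁻¹ ≠ z := by
    intro z hz h
    rw [mem_cr hf.ne_zero] at hz
    have h2 := hf.eq_one hz h.symm
    rw [h2] at hz
    apply hne
    have h3 : aeval (1 : ℂ) f = ((f.eval 1 : ℚ) : ℂ) := by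
      have h4 : (1 : ℂ) = algebraMap ℚ ℂ 1 := by simp
      rw [h4, aeval_algebraMap_apply, coe_aeval_eq_eval]
      rfl
    rw [h3] at hz
    exact_mod_cast hz
  have h2 : ∑ _z ∈ cr f, (1 : ZMod 2) = 0 := by
    refine Finset.sum_involution (fun z _ => z⁻¹) ?_ ?_ ?_ ?_
    · intro z _
      decide
    · intro z hz _
      exact h1 z hz
    · intro z hz
      exact hf.inv_mem hz
    · intro z _
      exact inv_inv z
  rw [Finset.sum_const, hf.card, nsmul_eq_mul, mul_one] at h2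
  have h3 := (ZMod.natCast_eq_zero_iff _ _).1 h2
  exact (Nat.not_even_iff_odd.2 hodd) (even_iff_two_dvd.2 h3)

/-- a polynomial of even degree does not have the root `1` -/
theorem Pol.one_not_root (heven : Even f.natDegree) : f.eval 1 ≠ 0 := by
  intro h0
  have hmem : (1 : ℂ) ∈ cr f := by
    rw [mem_cr hf.ne_zero]
    have h4 : (1 : ℂ) = algebraMap ℚ ℂ 1 := by simp
    rw [h4, aeval_algebraMap_apply, coe_aeval_eq_eval, h0, map_zero]
  have h2 : ∑ _z ∈ (cr f).erase 1, (1 : ZMod 2) = 0 := by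
    refine Finset.sum_involution (fun z _ => z⁻¹) ?_ ?_ ?_ ?_
    · intro z _
      decide
    · intro z hz _ h
      rw [Finset.mem_erase] at hz
      have hz' := (mem_cr hf.ne_zero).1 hz.2
      exact hz.1 (hf.eq_one hz' h.symm)
    · intro z hz
      rw [Finset.mem_erase] at hz ⊢
      refine ⟨fun h => hz.1 (inv_eq_one.1 h), hf.inv_mem hz.2⟩
    · intro z _
      exact inv_inv z
  rw [Finset.sum_const, Finset.card_erase_of_mem hmem, hf.card, nsmul_eq_mul, mul_one] at h2
  have h3 := (ZMod.natCast_eq_zero_iff _ _).1 h2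
  have h5 : 0 < f.natDegree := by
    rw [← hf.card]
    exact Finset.card_pos.2 ⟨1, hmem⟩
  obtain ⟨m, hm⟩ := heven
  omega

/-- a root which is not its own inverse -/
theorem Pol.exists_root (hdeg : 2 ≤ f.natDegree) : ∃ z : ℂ, aeval z f = 0 ∧ z ≠ z⁻¹ := by
  by_contra hcon
  push Not at hcon
  have h1 : cr f ⊆ {1} := by
    intro z hz
    rw [mem_cr hf.ne_zero] at hz
    rw [Finset.mem_singleton]
    exact hf.eq_one hz (hcon z hz)
  have h2 := Finset.card_le_card h1
  rw [hf.card, Finset.card_singleton] at h2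
  omega

end

section rel
variable {J : Type} [Fintype J] [DecidableEq J] {F : J → ℚ[X]}

/-- products which are roots of unity -/
theorem Triv.tors (h : Triv F) {k : J → ℂ → ℤ} {m : ℕ} (hm : 0 < m)
    (hk : (∏ j, ∏ z ∈ cr (F j), z ^ k j z) ^ m = 1) (j : J) {z : ℂ} (hz : z ∈ cr (F j)) :
    k j z = k j z⁻¹ := by
  have h1 := h (fun j z => (m : ℤ) * k j z) (by
    rw [← hk, ← Finset.prod_pow]
    refine Finset.prod_congr rfl fun j _ => ?_
    rw [← Finset.prod_pow]
    refine Finset.prod_congr rfl fun z _ => ?_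
    rw [mul_comm, zpow_mul, zpow_natCast]) j z hz
  have h2 : (m : ℤ) ≠ 0 := by exact_mod_cast hm.ne'
  exact mul_left_cancel₀ h2 h1

/-- relations for one polynomial -/
theorem Triv.one (h : Triv F) (j : J) {k : ℂ → ℤ} {m : ℕ} (hm : 0 < m)
    (hk : (∏ z ∈ cr (F j), z ^ k z) ^ m = 1) {z : ℂ} (hz : z ∈ cr (F j)) : k z = k z⁻¹ := by
  have h1 := h.tors (k := fun i => if i = j then k else 0) hm (by
    rw [Finset.prod_eq_single j]
    · rw [if_pos rfl]
      exact hk
    · intro i _ hi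
      rw [if_neg hi]
      simp
    · intro h
      exact absurd (Finset.mem_univ j) h) j hz
  simpa using h1

/-- a product of powers of roots -/
theorem prod_single {f : ℚ[X]} {x : ℂ} (hx : x ∈ cr f) :
    ∏ z ∈ cr f, z ^ (if z = x then (1 : ℤ) else 0) = x := by
  rw [Finset.prod_eq_single x]
  · rw [if_pos rfl, zpow_one]
  · intro z _ hz
    rw [if_neg hz, zpow_zero]
  · intro h
    exact absurd hx h

theorem prod_add (s : Finset ℂ) (h0 : ∀ z ∈ s, z ≠ 0) (a b : ℂ → ℤ) :
    ∏ z ∈ s, z ^ (a z + b z) = (∏ z ∈ s, z ^ a z) * ∏ z ∈ s, z ^ b z := by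
  rw [← Finset.prod_mul_distrib]
  exact Finset.prod_congr rfl fun z hz => zpow_add₀ (h0 z hz) _ _

theorem prod_neg (s : Finset ℂ) (a : ℂ → ℤ) :
    ∏ z ∈ s, z ^ (-a z) = (∏ z ∈ s, z ^ a z)⁻¹ := by
  rw [← Finset.prod_inv_distrib]
  exact Finset.prod_congr rfl fun z _ => zpow_neg _ _

/-- no root different from `1` is a root of unity -/
theorem Triv.root_pow (h : Triv F) {j : J} (hf : Pol (F j)) {x : ℂ} (hx : aeval x (F j) = 0)
    {m : ℕ} (hm : 0 < m) (hxm : x ^ m = 1) : x = 1 := by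
  have hx' := (mem_cr hf.ne_zero).2 hx
  have h1 := h.one j (k := fun z => if z = x then 1 else 0) hm (by rw [prod_single hx', hxm]) hx'
  refine hf.eq_one hx ?_
  by_contra hne
  rw [if_pos rfl, if_neg fun h => hne h.symm] at h1
  exact one_ne_zero h1

/-- powers of different roots are different -/
theorem Triv.pow_inj (h : Triv F) {j : J} (hf : Pol (F j)) {x y : ℂ} (hx : aeval x (F j) = 0)
    (hy : aeval y (F j) = 0) {m : ℕ} (hm : 0 < m) (hxy : x ^ m = y ^ m) : x = y := by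
  by_contra hne
  have hx' := (mem_cr hf.ne_zero).2 hx
  have hy' := (mem_cr hf.ne_zero).2 hy
  have hy0 := hf.root_ne hy
  have h0 : ∀ z ∈ cr (F j), z ≠ 0 := fun z hz => hf.root_ne ((mem_cr hf.ne_zero).1 hz)
  have hprod : (∏ z ∈ cr (F j), z ^ ((if z = x then (1 : ℤ) else 0) +
      -(if z = y then (1 : ℤ) else 0))) ^ m = 1 := by
    rw [prod_add _ h0, prod_neg, prod_single hx', prod_single hy', mul_pow, inv_pow, hxy,
      mul_inv_cancel₀ (pow_ne_zero m hy0)]
  have h1 := h.one j hm hprod hx'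
  have h2 := h.one j hm hprod hy'
  simp only [if_true, if_neg hne, if_neg (Ne.symm hne)] at h1 h2
  by_cases h3 : x⁻¹ = x
  · rw [if_pos h3, if_neg (by rw [h3]; exact hne)] at h1
    by_cases h4 : y⁻¹ = y
    · exact hne ((hf.eq_one hx h3.symm).trans (hf.eq_one hy h4.symm).symm)
    · rw [if_neg h4] at h2
      split_ifs at h2 <;> omega
  · rw [if_neg h3] at h1
    split_ifs at h1 <;> omega

/-- relations between three roots -/
theorem Triv.three (h : Triv F) {j : J} (hf : Pol (F j)) {x y z : ℂ} (hx : aeval x (F j) = 0)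
    (hy : aeval y (F j) = 0) (hz : aeval z (F j) = 0) (hx1 : x ≠ 1) (hy1 : y ≠ 1) (hz1 : z ≠ 1) :
    x * y ≠ z := by
  intro hxy
  have hx' := (mem_cr hf.ne_zero).2 hx
  have hy' := (mem_cr hf.ne_zero).2 hy
  have hz' := (mem_cr hf.ne_zero).2 hz
  have h0 : ∀ z ∈ cr (F j), z ≠ 0 := fun z hz => hf.root_ne ((mem_cr hf.ne_zero).1 hz)
  have hprod : (∏ t ∈ cr (F j), t ^ ((if t = x then (1 : ℤ) else 0) +
      ((if t = y then (1 : ℤ) else 0) + -(if t = z then (1 : ℤ) else 0)))) ^ 1 = 1 := by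
    rw [prod_add _ h0, prod_add _ h0, prod_neg, prod_single hx', prod_single hy', prod_single hz',
      pow_one, ← mul_assoc, hxy, mul_inv_cancel₀ (hf.root_ne hz)]
  have hne : ∀ t : ℂ, aeval t (F j) = 0 → t ≠ 1 → t⁻¹ ≠ t := fun t ht h1 h2 => h1 (hf.eq_one ht h2.symm)
  have hxx := hne x hx hx1
  have hyy := hne y hy hy1
  have hzz := hne z hz hz1
  have h1 := h.one j one_pos hprod hx'
  have h2 := h.one j one_pos hprod hy'
  have h3 := h.one j one_pos hprod hz'
  simp only [if_true] at h1 h2 h3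
  -- the coefficient sums
  have e1 : ∀ a b : ℂ, (a⁻¹ = b) = (b⁻¹ = a) := fun a b => propext ⟨fun h => by rw [← h, inv_inv],
    fun h => by rw [← h, inv_inv]⟩
  have e2 : ∀ a b : ℂ, (a = b) = (b = a) := fun a b => propext ⟨Eq.symm, Eq.symm⟩
  by_cases hxy1 : x = y
  · subst hxy1
    rw [if_neg hxx] at h1
    by_cases hxz : x = z
    · subst hxz
      rw [if_neg hxx] at h1
      simp at h1
    · rw [if_neg hxz] at h1
      split_ifs at h1 <;> omega
  by_cases hxy2 : x⁻¹ = y
  · -- then `z = 1`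
    apply hz1
    rw [← hxy, ← hxy2, mul_inv_cancel₀ (hf.root_ne hx)]
  rw [if_neg hxx, if_neg hxy1, if_neg hxy2] at h1
  have hyx1 : ¬ y = x := fun h => hxy1 h.symm
  have hyx2 : ¬ y⁻¹ = x := by rw [e1]; exact hxy2
  rw [if_neg hyy, if_neg hyx1, if_neg hyx2] at h2
  by_cases hxz : x = z
  · subst hxz
    rw [if_neg hyx1, if_neg hyx2] at h2
    omega
  · rw [if_neg hxz] at h1
    split_ifs at h1 <;> omega

/-- relations between four roots -/
theorem Triv.four (h : Triv F) {j : J} (hf : Pol (F j)) (hone : ∀ x : ℂ, aeval x (F j) = 0 → x ≠ 1)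
    {x y z w : ℂ} (hx : aeval x (F j) = 0) (hy : aeval y (F j) = 0) (hz : aeval z (F j) = 0)
    (hw : aeval w (F j) = 0) (hxy : x ≠ y) (hrel : x * w = z * y) :
    (z = x ∧ w = y) ∨ (z * y = 1 ∧ w * x = 1) := by
  have hx' := (mem_cr hf.ne_zero).2 hx
  have hy' := (mem_cr hf.ne_zero).2 hy
  have hz' := (mem_cr hf.ne_zero).2 hz
  have hw' := (mem_cr hf.ne_zero).2 hw
  have h0 : ∀ z ∈ cr (F j), z ≠ 0 := fun z hz => hf.root_ne ((mem_cr hf.ne_zero).1 hz)
  have hx0 := hf.root_ne hx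
  have hy0 := hf.root_ne hy
  have hz0 := hf.root_ne hz
  have hw0 := hf.root_ne hw
  by_cases hzx : z = x
  · left
    subst hzx
    exact ⟨rfl, mul_left_cancel₀ hz0 hrel⟩
  by_cases hzy : z⁻¹ = y
  · right
    subst hzy
    have h1 : z * z⁻¹ = 1 := mul_inv_cancel₀ hz0
    exact ⟨h1, by rw [mul_comm, hrel, h1]⟩
  exfalso
  have hprod : (∏ t ∈ cr (F j), t ^ (((if t = x then (1 : ℤ) else 0) +
      (if t = w then (1 : ℤ) else 0)) +
      (-(if t = z then (1 : ℤ) else 0) + -(if t = y then (1 : ℤ) else 0)))) ^ 1 = 1 := by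
    rw [prod_add _ h0, prod_add _ h0, prod_add _ h0, prod_neg, prod_neg, prod_single hx',
      prod_single hy', prod_single hz', prod_single hw', pow_one, hrel, ← mul_inv,
      mul_inv_cancel₀ (mul_ne_zero hz0 hy0)]
  have hne : ∀ t : ℂ, aeval t (F j) = 0 → t⁻¹ ≠ t := fun t ht h2 => hone t ht (hf.eq_one ht h2.symm)
  have hxx := hne x hx
  have hyy := hne y hy
  have hzz := hne z hz
  have hww := hne w hw
  have hwy : ¬ w = y := by
    rintro rfl
    exact hzx (mul_right_cancel₀ hw0 hrel.symm)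
  have e1 : ∀ a b : ℂ, a⁻¹ = b → b⁻¹ = a := fun a b h => by rw [← h, inv_inv]
  have hxw : ¬ x⁻¹ = w := by
    intro hh
    have h1 : z * y = 1 := by rw [← hrel, ← hh, mul_inv_cancel₀ hx0]
    exact hzy (inv_eq_of_mul_eq_one_right h1)
  have h1 := h.one j one_pos hprod hx'
  have h3 := h.one j one_pos hprod hz'
  simp only [if_true] at h1 h3
  have hxz' : ¬ x = z := fun h => hzx h.symm
  have hyx' : ¬ y = x := fun h => hxy h.symm
  rw [if_neg hxx, if_neg hxz', if_neg hxy, if_neg hxw] at h1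
  -- `1 + [x = w] = -[x⁻¹ = z] - [x⁻¹ = y]`
  split_ifs at h1 <;> omega

end rel

end Pool.Agent.V5helper94.MT
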