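import Pool.Agent.V5helper94.MT.Rel
import Pool.Agent.Y142.ZD.Basic
import Pool.Agent.Y142.ZS.Fin
import Pool.Agent.Y142.ZI.Steps

/-!
# Families of Frobenius polynomials: isotropic relations, generic places, independent roots
-/

set_option autoImplicit false
set_option linter.unusedSectionVars false

namespace Pool.Agent.V5helper94.MT

open Polynomial NumberField IsDedekindDomain
open Pool.Agent.Y142.ZO Pool.Agent.Y142.ZI Pool.Agent.Y142.ZS
open Pool.Agent.Y142 (IsoRel)
open Pool.Agent.Y142.ZD (GenO)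

/-- the polynomial with the roots `z / q` -/
noncomputable def tw (q : ℕ) (R : ℤ[X]) : ℚ[X] :=
  (R.map (Int.castRingHom ℚ)).scaleRoots ((q : ℚ)⁻¹)

section tw
variable {q : ℕ} (hq : 0 < q) {R : ℤ[X]} (hR : R.Monic)
include hq hR

theorem tw_monic : (tw q R).Monic := (monic_scaleRoots_iff _).2 (hR.map _)

theorem tw_natDegree : (tw q R).natDegree = R.natDegree := by
  unfold tw
  rw [natDegree_scaleRoots, hR.natDegree_map]

theorem tw_roots (Ω : Type) [Field Ω] [CharZero Ω] [Algebra ℚ Ω] :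
    (tw q R).aroots Ω = (R.aroots Ω).map (fun z => (q : Ω)⁻¹ * z) := by
  have hq' : (q : Ω) ≠ 0 := by exact_mod_cast hq.ne'
  have h1 : (tw q R).map (algebraMap ℚ Ω) =
      (R.map (algebraMap ℤ Ω)).scaleRoots ((q : Ω)⁻¹) := by
    unfold tw
    rw [map_scaleRoots _ _ _ (by
      rw [(hR.map _).leadingCoeff, map_one]
      exact one_ne_zero), Polynomial.map_map]
    congr 1
    · congr 1
      exact Subsingleton.elim _ _
    · rw [map_inv₀, map_natCast]
  rw [aroots_def, h1, roots_scaleRoots _ (isUnit_iff_ne_zero.2 (inv_ne_zero hq'))]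

theorem tw_root_iff {z : ℂ} : aeval z (tw q R) = 0 ↔ aeval ((q : ℂ) * z) R = 0 := by
  have hq' : (q : ℂ) ≠ 0 := by exact_mod_cast hq.ne'
  have h1 : z ∈ (tw q R).aroots ℂ ↔ aeval z (tw q R) = 0 := by
    rw [mem_aroots]
    exact ⟨fun h => h.2, fun h => ⟨(tw_monic hq hR).ne_zero, h⟩⟩
  have h2 : (q : ℂ) * z ∈ R.aroots ℂ ↔ aeval ((q : ℂ) * z) R = 0 := by
    rw [mem_aroots]
    exact ⟨fun h => h.2, fun h => ⟨hR.ne_zero, h⟩⟩
  rw [← h1, ← h2, tw_roots hq hR, Multiset.mem_map]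
  constructor
  · rintro ⟨y, hy, rfl⟩
    rwa [← mul_assoc, mul_inv_cancel₀ hq', one_mul]
  · intro h
    exact ⟨_, h, by rw [← mul_assoc, inv_mul_cancel₀ hq', one_mul]⟩

theorem tw_pol (hsep : (R.map (Int.castRingHom ℚ)).Separable)
    (hw : ∀ z : ℂ, aeval z R = 0 → ‖z‖ = q) (hneg : R.eval (-(q : ℤ)) ≠ 0) : Pol (tw q R) where
  monic := tw_monic hq hR
  sep := by
    have hq' : ((q : ℚ)⁻¹) ≠ 0 := inv_ne_zero (by exact_mod_cast hq.ne')
    have hinj : Function.Injective (algebraMap ℚ ℂ) := (algebraMap ℚ ℂ).injective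
    rw [← Polynomial.separable_map (algebraMap ℚ ℂ)]
    refine (nodup_roots_iff_of_splits (Polynomial.map_ne_zero (tw_monic hq hR).ne_zero)
      (IsAlgClosed.splits _)).1 ?_
    have h1 := tw_roots hq hR ℂ
    rw [aroots_def] at h1
    rw [h1]
    refine Multiset.Nodup.map ?_ ?_
    · intro a b hab
      have h2 : ((q : ℂ)⁻¹) ≠ 0 := inv_ne_zero (by exact_mod_cast hq.ne')
      exact mul_left_cancel₀ h2 hab
    · have h3 : R.aroots ℂ = ((R.map (Int.castRingHom ℚ)).map (algebraMap ℚ ℂ)).roots := by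
        rw [aroots_def, Polynomial.map_map]
        congr 2
      rw [h3]
      exact nodup_roots hsep.map
  pure z hz := by
    have h1 := hw _ ((tw_root_iff hq hR).1 hz)
    rw [norm_mul, Complex.norm_natCast] at h1
    have h2 : (q : ℝ) ≠ 0 := by exact_mod_cast hq.ne'
    exact mul_left_cancel₀ h2 (by rw [h1, mul_one])
  neg := by
    intro h0
    apply hneg
    have h1 : aeval (-1 : ℂ) (tw q R) = 0 := by
      have h2 : (-1 : ℂ) = algebraMap ℚ ℂ (-1) := by simp
      rw [h2, aeval_algebraMap_apply, coe_aeval_eq_eval, h0, map_zero]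
    rw [tw_root_iff hq hR] at h1
    have h3 : (q : ℂ) * (-1) = algebraMap ℤ ℂ (-(q : ℤ)) := by simp
    rw [h3, aeval_algebraMap_apply, coe_aeval_eq_eval] at h1
    exact (algebraMap ℤ ℂ).injective_int (by rw [h1, map_zero])

end tw

section iso
variable {J : Type} [Fintype J] [DecidableEq J] {m : ℕ} {F : Fin m × J → ℚ[X]}

/-- **no isotropic relations** -/
theorem no_iso (h : Triv F) {p : ℕ} (hp : 0 < p) (hm : 0 < m) (j : J) {R : Fin m → ℤ[X]}
    (hR : ∀ a, (R a).Monic) (hF : ∀ a, F (a, j) = tw p (R a)) (hpol : ∀ a, Pol (F (a, j)))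
    {d : ℕ} (hd : 0 < d) : ¬ IsoRel ℂ ℂ R (p ^ 2) d := by
  rintro ⟨Q, n, hn, hQ, hprod⟩
  have hp' : (p : ℂ) ≠ 0 := by exact_mod_cast hp.ne'
  set T : Fin m → Multiset ℂ := fun a => ((Q a).aroots ℂ).map (fun z => (p : ℂ)⁻¹ * z) with hT
  have hle : ∀ a, T a + (T a).map (fun z => z⁻¹) ≤ (F (a, j)).aroots ℂ := by
    intro a
    have h1 := Multiset.map_le_map (f := fun z => (p : ℂ)⁻¹ * z) (hQ a).2.2
    rw [hF a, tw_roots hp (hR a)]
    refine le_trans (le_of_eq ?_) h1
    rw [Multiset.map_add, hT]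
    congr 1
    simp only [Multiset.map_map, Function.comp_apply]
    refine Multiset.map_congr rfl fun z _ => ?_
    rw [mul_inv, inv_inv, Nat.cast_pow]
    field_simp
  have hnd : ∀ a, (T a + (T a).map (fun z => z⁻¹)).Nodup := fun a =>
    Multiset.nodup_of_le (hle a) (nodup_roots (hpol a).sep.map)
  have hcard : ∀ a, (T a).card = d := by
    intro a
    rw [hT]
    simp only [Multiset.card_map]
    rw [← (hQ a).2.1, aroots_def, Algebra.algebraMap_self, Polynomial.map_id]
    exact (IsAlgClosed.splits (Q a)).natDegree_eq_card_roots.symm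
  have hsub : ∀ a, ∀ z ∈ T a, z ∈ cr (F (a, j)) := by
    intro a z hz
    unfold cr
    rw [Multiset.mem_toFinset]
    exact Multiset.mem_of_le (hle a) (Multiset.mem_add.2 (Or.inl hz))
  have hdis : ∀ a, ∀ z ∈ T a, z⁻¹ ∉ T a := by
    intro a z hz hz'
    have h1 := (Multiset.nodup_add.1 (hnd a)).2.2
    refine Multiset.disjoint_left.1 h1 hz' ?_
    exact Multiset.mem_map.2 ⟨z, hz, rfl⟩
  have hndT : ∀ a, (T a).Nodup := fun a => (Multiset.nodup_add.1 (hnd a)).1
  -- the relation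
  have hone : (∏ a, (T a).prod) ^ (2 * n) = 1 := by
    have h1 : ∀ a, (T a).prod = ((p : ℂ)⁻¹) ^ d * ((Q a).aroots ℂ).prod := by
      intro a
      have h2 : ((Q a).aroots ℂ).card = d := by
        have h3 := hcard a
        rw [hT] at h3
        simpa only [Multiset.card_map] using h3
      have h3 : (T a).prod = (((Q a).aroots ℂ).map (fun _ => (p : ℂ)⁻¹)).prod *
          (((Q a).aroots ℂ).map (fun z => z)).prod := Multiset.prod_map_mul
      rw [h3, Multiset.map_const', Multiset.prod_replicate, Multiset.map_id', h2]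
    rw [Finset.prod_congr rfl fun a _ => h1 a, Finset.prod_mul_distrib, Finset.prod_const,
      Finset.card_univ, Fintype.card_fin, mul_pow, hprod, Nat.cast_pow]
    have h2 : ((((p : ℂ)⁻¹ ^ d) ^ m) ^ (2 * n)) = ((p : ℂ) ^ 2) ^ (d * m * n) * ((p : ℂ)⁻¹ ^ 2) ^ (d * m * n) *
        (((p : ℂ)⁻¹ ^ d) ^ m) ^ (2 * n) := by
      rw [← mul_pow, ← mul_pow, mul_inv_cancel₀ hp', one_pow, one_pow, one_mul]
    have h3 : (((p : ℂ)⁻¹ ^ d) ^ m) ^ (2 * n) = ((p : ℂ)⁻¹ ^ 2) ^ (d * m * n) := by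
      rw [← pow_mul, ← pow_mul, ← pow_mul]
      congr 1
      ring
    rw [h3, ← mul_pow, ← mul_pow, inv_mul_cancel₀ hp', one_pow, one_pow]
  obtain ⟨w, hw⟩ := Multiset.card_pos_iff_exists_mem.1 (by rw [hcard ⟨0, hm⟩]; exact hd)
  have key := h.tors (k := fun i z => if i.2 = j ∧ z ∈ T i.1 then 1 else 0) (m := 2 * n) (by omega)
    (by
      rw [← hone]
      congr 1
      rw [Fintype.prod_prod_type]
      refine Finset.prod_congr rfl fun a _ => ?_
      rw [Finset.prod_eq_single j]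
      · simp only [true_and]
        have h1 : (T a).prod = ∏ z ∈ (T a).toFinset, z := by
          rw [Finset.prod, Multiset.toFinset_val, Multiset.dedup_eq_self.2 (hndT a),
            Multiset.map_id']
        rw [h1]
        rw [← Finset.prod_subset (s₁ := (T a).toFinset) (s₂ := cr (F (a, j)))]
        · refine Finset.prod_congr rfl fun z hz => ?_
          rw [if_pos (Multiset.mem_toFinset.1 hz), zpow_one]
        · intro z hz
          exact hsub a z (Multiset.mem_toFinset.1 hz)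
        · intro z _ hz
          rw [if_neg fun h => hz (Multiset.mem_toFinset.2 h), zpow_zero]
      · intro i _ hi
        refine Finset.prod_eq_one fun z _ => ?_
        rw [if_neg fun h => hi h.1, zpow_zero]
      · intro h
        exact absurd (Finset.mem_univ j) h) (⟨0, hm⟩, j) (hsub _ w hw)
  simp only [true_and] at key
  rw [if_pos hw, if_neg (hdis _ w hw)] at key
  exact one_ne_zero key

end iso

section closure
variable {J : Type} [Fintype J] [DecidableEq J] {F : J → ℚ[X]}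

theorem closure_form {f : ℚ[X]} (hf : Pol f) {x : ℂˣ}
    (hx : x ∈ Subgroup.closure {y : ℂˣ | aeval (y : ℂ) f = 0 ∨ (y : ℂ) = ((1 : ℚ) : ℂ)}) :
    ∃ k : ℂ → ℤ, (x : ℂ) = ∏ z ∈ cr f, z ^ k z := by
  have h0 : ∀ z ∈ cr f, z ≠ 0 := fun z hz => hf.root_ne ((mem_cr hf.ne_zero).1 hz)
  induction hx using Subgroup.closure_induction with
  | mem y hy =>
    rcases hy with hy | hy
    · exact ⟨fun z => if z = (y : ℂ) then 1 else 0,
        (prod_single ((mem_cr hf.ne_zero).2 hy)).symm⟩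
    · refine ⟨fun _ => 0, ?_⟩
      rw [hy]
      simp
  | one => exact ⟨fun _ => 0, by simp⟩
  | mul a b _ _ ha hb =>
    obtain ⟨k, hk⟩ := ha
    obtain ⟨l, hl⟩ := hb
    exact ⟨fun z => k z + l z, by rw [prod_add _ h0, Units.val_mul, hk, hl]⟩
  | inv a _ ha =>
    obtain ⟨k, hk⟩ := ha
    exact ⟨fun z => -k z, by rw [prod_neg, Units.val_inv_eq_inv_val, hk]⟩

/-- **independent roots** -/
theorem Triv.indep (h : Triv F) {i j : J} (hij : i ≠ j) (hi : Pol (F i)) (hj : Pol (F j)) {x : ℂˣ}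
    (hx : aeval (x : ℂ) (F i) = 0) (hx1 : (x : ℂ) ≠ (x : ℂ)⁻¹) (m : ℕ) (hm : 0 < m) :
    x ^ m ∉ Subgroup.closure {y : ℂˣ | aeval (y : ℂ) (F j) = 0 ∨ (y : ℂ) = ((1 : ℚ) : ℂ)} := by
  intro hmem
  obtain ⟨l, hl⟩ := closure_form hj hmem
  have hx' := (mem_cr hi.ne_zero).2 hx
  have h1 := h (fun a z => if a = i then (if z = (x : ℂ) then (m : ℤ) else 0) else
    if a = j then -l z else 0) (by
      have e3 : ∏ a ∈ (Finset.univ.erase i).erase j, ∏ z ∈ cr (F a),
          z ^ (if a = i then (if z = (x : ℂ) then (m : ℤ) else 0) else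
            if a = j then -l z else 0) = 1 := by
        refine Finset.prod_eq_one fun a ha => ?_
        rw [Finset.mem_erase, Finset.mem_erase] at ha
        simp only [if_neg ha.1, if_neg ha.2.1, zpow_zero, Finset.prod_const_one]
      have e1 : ∏ z ∈ cr (F i), z ^ (if z = (x : ℂ) then (m : ℤ) else 0) = (x : ℂ) ^ m := by
        rw [Finset.prod_eq_single (x : ℂ)]
        · rw [if_pos rfl, zpow_natCast]
        · intro z _ hz
          rw [if_neg hz, zpow_zero]
        · intro hh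
          exact absurd hx' hh
      have e2 : ∏ z ∈ cr (F j), z ^ (-l z) = ((x : ℂ) ^ m)⁻¹ := by
        rw [prod_neg, ← hl, Units.val_pow_eq_pow_val]
      rw [← Finset.mul_prod_erase _ _ (Finset.mem_univ i), ← Finset.mul_prod_erase _ _
        (Finset.mem_erase.2 ⟨Ne.symm hij, Finset.mem_univ j⟩), e3, mul_one]
      simp only [if_true, if_neg (Ne.symm hij)]
      rw [e1, e2]
      exact mul_inv_cancel₀ (pow_ne_zero m (Units.ne_zero x))) i _ hx'
  simp only [if_true] at h1
  rw [if_neg (Ne.symm hx1)] at h1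
  exact hm.ne' (by exact_mod_cast h1)

end closure

section places
variable {K : Type} [Field K] [NumberField K] {J : Type} [Fintype J] [DecidableEq J]
  {F : J → ℚ[X]} {S : Set (HeightOneSpectrum (𝓞 K))} {P : HeightOneSpectrum (𝓞 K) → ℚ[X]}
  {v : HeightOneSpectrum (𝓞 K)}

theorem nice_of (h : Triv F) {j : J} (hf : Pol (F j)) (hvS : v ∉ S) (hPv : P v = F j) :
    NiceP S P v := by
  obtain ⟨jc⟩ := nonempty_LC
  rw [← hPv] at hf
  refine ⟨hvS, hf.monic, hf.sep, fun k x y hk hx hy hxy => ?_⟩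
  apply jc.injective
  refine h.pow_inj (j := j) (by rw [← hPv]; exact hf) ?_ ?_ hk (by rw [← map_pow, hxy, map_pow])
  · rw [← hPv]
    exact push_C jc hx
  · rw [← hPv]
    exact push_C jc hy

theorem genO_of (h : Triv F) {j : J} (hf : Pol (F j)) (heven : Even (F j).natDegree) (hvS : v ∉ S)
    (hPv : P v = F j) : GenO S P v := by
  obtain ⟨jc⟩ := nonempty_LC
  have hone : ∀ x : ℂ, aeval x (F j) = 0 → x ≠ 1 := by
    rintro x hx rfl
    apply hf.one_not_root heven
    have h3 : aeval (1 : ℂ) (F j) = (((F j).eval 1 : ℚ) : ℂ) := by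
      have h4 : (1 : ℂ) = algebraMap ℚ ℂ 1 := by simp
      rw [h4, aeval_algebraMap_apply, coe_aeval_eq_eval]
      rfl
    rw [h3] at hx
    exact_mod_cast hx
  have hpush : ∀ x : QQ, aeval x (P v) = 0 → aeval (jc x) (F j) = 0 := fun x hx => by
    rw [← hPv]
    exact push_C jc hx
  refine ⟨nice_of h hf hvS hPv, fun x hx hxx => ?_, fun x y z w hx hy hz hw hxy hrel => ?_⟩
  · have h1 : jc x * jc x = 1 := by rw [← map_mul, hxx, map_one]
    rcases mul_self_eq_one_iff.1 h1 with h2 | h2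
    · exact hone _ (hpush x hx) h2
    · exact hf.ne_neg (hpush x hx) h2
  · rcases h.four hf hone (hpush x hx) (hpush y hy) (hpush z hz) (hpush w hw)
      (fun hh => hxy (jc.injective hh)) (by rw [← map_mul, ← map_mul, hrel]) with h1 | h1
    · exact Or.inl ⟨jc.injective h1.1, jc.injective h1.2⟩
    · rw [← map_mul, ← map_mul, ← map_one jc] at h1
      exact Or.inr ⟨jc.injective h1.1, jc.injective h1.2⟩

theorem good_of (h : Triv F) {j : J} (hf : Pol (F j)) (hodd : Odd (F j).natDegree) (hvS : v ∉ S)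
    (hPv : P v = F j) : ∃ Q : ℚ[X], GoodPlace S P v Q ∧
      ∀ x y z : ℂ, aeval x Q = 0 → aeval y Q = 0 → aeval z Q = 0 → x * y ≠ z := by
  have h0 := hf.one_root hodd
  obtain ⟨Q, hQ⟩ := (dvd_iff_isRoot.2 h0 : (X - C 1) ∣ F j)
  rw [C_1] at hQ
  have hroot : ∀ x : ℂ, aeval x Q = 0 → aeval x (F j) = 0 ∧ x ≠ 1 := by
    intro x hx
    have h1 : aeval x (F j) = 0 := by rw [hQ, map_mul, hx, mul_zero]
    refine ⟨h1, ?_⟩
    rintro rfl
    have h2 : aeval (1 : ℂ) (X - 1 : ℚ[X]) = 0 := by simp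
    have h3 := hf.sep
    rw [hQ] at h3
    have h4 := h3.isCoprime
    obtain ⟨a, b, hab⟩ := h4
    have h5 := congrArg (aeval (1 : ℂ)) hab
    rw [map_add, map_mul, map_mul, hx, h2, mul_zero, mul_zero, add_zero, map_one] at h5
    exact zero_ne_one h5
  refine ⟨Q, ⟨hvS, by rw [hPv, hQ], coprime_of_roots fun k hk x hx hxk => ?_⟩, ?_⟩
  · obtain ⟨h1, h2⟩ := hroot x hx
    exact h2 (h.root_pow hf h1 hk hxk)
  · intro x y z hx hy hz
    obtain ⟨hx1, hx2⟩ := hroot x hx
    obtain ⟨hy1, hy2⟩ := hroot y hy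
    obtain ⟨hz1, hz2⟩ := hroot z hz
    exact h.three hf hx1 hy1 hz1 hx2 hy2 hz2

end places

end Pool.Agent.V5helper94.MT
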