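import Pool.Agent.V5helper94.MT.Every
import Pool.Agent.R932.GR.Full

/-!
# From the Mumford-Tate conjecture to the joint Lie algebra of the blocks
-/

set_option autoImplicit false
set_option linter.unusedSectionVars false

namespace Pool.Agent.V5helper94.MT

open Matrix Filter Topology
open Pool.Agent.W544.PG (HS BD bl mC)
open Pool.Agent.Y95.MT
open Pool.Agent.R932
open Pool.Agent.R932.PO (JTan IsForm)
open Pool.Agent.R932.EV (SS SC)
open Pool.Agent.R932.GR (ZarF evf Pf)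
open Pool.Agent.Y142.ZS (Sim SpLie)
open Pool.Agent.Y142.ZO (IsTangent)

noncomputable section

variable {ℓ : ℕ} [hℓ : Fact ℓ.Prime] {n r : ℕ} {c : Fin n → Fin r} {T : HS n} {p q : Fin r → ℕ}
  {Γ : Type} [Group Γ] {β : Γ →* Matrix (Fin n) (Fin n) ℤ_[ℓ]}

theorem BD_mul {R : Type} [Ring R] {A B : Matrix (Fin n) (Fin n) R} (hA : BD c A) (hB : BD c B) :
    BD c (A * B) := by
  intro a b hab
  rw [Matrix.mul_apply]
  refine Finset.sum_eq_zero fun d _ => ?_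
  by_cases hd : c a = c d
  · rw [hB d b (by rw [← hd]; exact hab), mul_zero]
  · rw [hA a d hd, zero_mul]

theorem un_SO (hbQ : BD c T.Q) {t : ∀ i, Matrix (Fin (Nb c i)) (Fin (Nb c i)) ℚ_[ℓ]}
    (ht : ∀ i, (t i)ᵀ * sb c i (Ql ℓ T) * t i = sb c i (Ql ℓ T)) (htd : ∀ i, (t i).det = 1) :
    InSO c T.Q ((un t).map (algebraMap ℚ_[ℓ] (AlgebraicClosure ℚ_[ℓ]))) := by
  obtain ⟨al, hal⟩ : ∃ al, al = algebraMap ℚ_[ℓ] (AlgebraicClosure ℚ_[ℓ]) := ⟨_, rfl⟩
  rw [← hal]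
  have hgb : BD c (un t) := un_BD t
  have hgt := BD_transpose hgb
  have h2 : BD c ((un t)ᵀ * Ql ℓ T) := BD_mul hgt (Ql_BD hbQ)
  have hgQ : (un t)ᵀ * Ql ℓ T * un t = Ql ℓ T := by
    refine ext_sb (BD_mul h2 hgb) (Ql_BD hbQ) fun j => ?_
    rw [sb_mul h2, sb_mul hgt, sb_transpose, sb_un]
    exact ht j
  refine ⟨?_, ?_, ?_⟩
  · have h1 : ((un t)ᵀ * Ql ℓ T * un t).map al = (Ql ℓ T).map al := by rw [hgQ]
    rw [Matrix.map_mul, Matrix.map_mul, Matrix.transpose_map] at h1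
    have h2 : (Ql ℓ T).map al = T.Q.map (algebraMap ℚ (AlgebraicClosure ℚ_[ℓ])) := by
      unfold Ql
      rw [Matrix.map_map]
      congr 1
      funext x
      rw [hal]
      exact (IsScalarTower.algebraMap_apply ℚ ℚ_[ℓ] (AlgebraicClosure ℚ_[ℓ]) x).symm
    rw [h2] at h1
    exact h1
  · intro a b hab
    rw [Matrix.map_apply, hgb a b hab, map_zero]
  · intro j
    rw [det_bl, sb_map, ← RingHom.mapMatrix_apply, ← RingHom.map_det, sb_un, htd, map_one]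

/-- the Zariski closure of the blocks -/
theorem zar_of_mtc (hB : T.Big c p q) (hg : GalT c T.Q β) (hc : ∀ σ, BD c (β σ))
    (h : MTC (hT T) (qrep β)) : ZarF (fun i => blk hc i) (fun i => sb c i (Ql ℓ T)) := by
  rintro f ⟨Δ, hΔ, hf⟩ t ht htd
  have hG := (mtcT_iff hB hg).1 h _ (un_SO hB.bQ ht htd)
  have hev : ∀ M : Matrix (Fin n) (Fin n) ℚ_[ℓ],
      MvPolynomial.aeval (fun q : Fin n × Fin n =>
        M.map (algebraMap ℚ_[ℓ] (AlgebraicClosure ℚ_[ℓ])) q.1 q.2)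
        (MvPolynomial.rename (fun x : Σ i, Fin (Nb c i) × Fin (Nb c i) =>
          (((eb c x.1 x.2.1).1, (eb c x.1 x.2.2).1) : Fin n × Fin n))
          (MvPolynomial.map (algebraMap ℚ_[ℓ] (AlgebraicClosure ℚ_[ℓ])) f)) =
      algebraMap ℚ_[ℓ] (AlgebraicClosure ℚ_[ℓ]) (evf (fun i => sb c i M) f) := by
    intro M
    rw [MvPolynomial.aeval_rename, MvPolynomial.aeval_map_algebraMap]
    have h1 : ((fun q : Fin n × Fin n =>
        M.map (algebraMap ℚ_[ℓ] (AlgebraicClosure ℚ_[ℓ])) q.1 q.2) ∘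
        (fun x : Σ i, Fin (Nb c i) × Fin (Nb c i) =>
          (((eb c x.1 x.2.1).1, (eb c x.1 x.2.2).1) : Fin n × Fin n))) =
        fun x => algebraMap ℚ_[ℓ] (AlgebraicClosure ℚ_[ℓ]) (sb c x.1 M x.2.1 x.2.2) := by
      funext x
      rfl
    rw [h1]
    have h2 := MvPolynomial.aeval_algebraMap_apply (AlgebraicClosure ℚ_[ℓ])
      (fun x : Σ i, Fin (Nb c i) × Fin (Nb c i) => sb c x.1 M x.2.1 x.2.2) f
    refine Eq.trans h2 ?_
    rfl
  have h1 := hG (MvPolynomial.rename (fun x : Σ i, Fin (Nb c i) × Fin (Nb c i) =>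
      (((eb c x.1 x.2.1).1, (eb c x.1 x.2.2).1) : Fin n × Fin n))
    (MvPolynomial.map (algebraMap ℚ_[ℓ] (AlgebraicClosure ℚ_[ℓ])) f)) ⟨Δ, hΔ, fun σ hσ => by
      have h2 := hev (qm (β σ))
      have h3 : evf (fun i => sb c i (qm (β σ))) f = 0 := hf σ hσ
      rw [h3, map_zero] at h2
      exact h2⟩
  rw [hev] at h1
  have h2 : (fun i => sb c i (un t)) = t := funext fun i => sb_un t i
  rw [h2] at h1
  exact (map_eq_zero_iff _ (algebraMap ℚ_[ℓ] (AlgebraicClosure ℚ_[ℓ])).injective).1 h1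

/-- the joint Lie algebra -/
theorem joint_of_mtc [TopologicalSpace Γ] [IsTopologicalGroup Γ] [CompactSpace Γ]
    (hB : T.Big c p q) (hβ : Continuous β) (hg : GalT c T.Q β) (hc : ∀ σ, BD c (β σ))
    (hrk : ∀ i, 5 ≤ Nb c i) (h : MTC (hT T) (qrep β))
    (X : ∀ i, Matrix (Fin (Nb c i)) (Fin (Nb c i)) ℚ_[ℓ])
    (hX : ∀ i, SpLie (sb c i (Ql ℓ T)) (X i)) : JTan ℓ (fun i => blk hc i) X := by
  refine Pool.Agent.R932.GR.joint_of_zar (fun i => blk_cont hβ hc i)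
    (fun i => ⟨Or.inl ⟨sb_Ql_symm i, hrk i⟩, sb_Ql_det hB.bQ i⟩) (fun i => by
      have := hrk i
      omega) (fun i g => ⟨1, ?_⟩) (zar_of_mtc hB hg hc h) X hX
  show (blk hc i g)ᵀ * sb c i (Ql ℓ T) * blk hc i g = _
  rw [blk_form hg hc hB.bQ, one_smul]

/-- twisting with a character does not change the orthogonal tangent vectors -/
theorem twist_tan {G : Type} [Group G] [TopologicalSpace G] [IsTopologicalGroup G]
    [CompactSpace G] {N : ℕ} (χ : G →* ℚ_[ℓ]) (hχ : Continuous χ)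
    (ρ ρ' : G →* Matrix (Fin N) (Fin N) ℚ_[ℓ]) (hρ : Continuous ρ) (hρ' : ∀ g, ρ' g = χ g • ρ g)
    {J : Matrix (Fin N) (Fin N) ℚ_[ℓ]} (hJ : IsForm J)
    (hfull : ∀ X, SpLie J X → IsTangent ℓ ρ X) (X : Matrix (Fin N) (Fin N) ℚ_[ℓ])
    (hX : SpLie J X) : IsTangent ℓ ρ' X := by
  let χ' : G →* Matrix (Fin 1) (Fin 1) ℚ_[ℓ] :=
    { toFun := fun g => χ g • 1
      map_one' := by rw [map_one, one_smul]
      map_mul' := fun a b => by rw [map_mul, smul_mul_smul_comm, one_mul] }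
  let NN : Bool → ℕ := fun b => if b then 1 else N
  let R : ∀ b : Bool, G →* Matrix (Fin (NN b)) (Fin (NN b)) ℚ_[ℓ] := fun b =>
    match b with
    | true => χ'
    | false => ρ
  have hR : ∀ b, Continuous (R b) := by
    rintro (_ | _)
    · exact hρ
    · show Continuous fun g => χ g • (1 : Matrix (Fin 1) (Fin 1) ℚ_[ℓ])
      exact hχ.smul continuous_const
  obtain ⟨𝔤, h𝔤, hbr, -⟩ := PO.jlie ℓ Bool NN G R
  let I : Matrix (Fin N) (Fin N) ℚ_[ℓ] →ₗ[ℚ_[ℓ]] ∀ b, Matrix (Fin (NN b)) (Fin (NN b)) ℚ_[ℓ] :=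
    { toFun := fun Y b => match b with
        | true => 0
        | false => Y
      map_add' := fun Y Z => by
        funext b
        rcases b with _ | _
        · rfl
        · exact (add_zero _).symm
      map_smul' := fun z Y => by
        funext b
        rcases b with _ | _
        · rfl
        · exact (smul_zero z).symm }
  have hmem : X ∈ 𝔤.comap I := by
    have h1 : PO.brs J ≤ 𝔤.comap I := by
      refine Submodule.span_le.2 ?_
      rintro _ ⟨A, B, hA, hB, rfl⟩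
      obtain ⟨Y, hY, hYA⟩ := PO.jlift ℓ Bool NN G R hR false A (hfull A hA)
      obtain ⟨Z, hZ, hZB⟩ := PO.jlift ℓ Bool NN G R hR false B (hfull B hB)
      have h2 := hbr Y ((h𝔤 Y).2 hY) Z ((h𝔤 Z).2 hZ)
      have h3 : I (A * B - B * A) = fun b => Y b * Z b - Z b * Y b := by
        funext b
        rcases b with _ | _
        · show A * B - B * A = Y false * Z false - Z false * Y false
          rw [hYA, hZB]
        · show (0 : Matrix (Fin 1) (Fin 1) ℚ_[ℓ]) = Y true * Z true - Z true * Y true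
          have h4 : ∀ U V : Matrix (Fin 1) (Fin 1) ℚ_[ℓ], U * V - V * U = 0 := by
            intro U V
            ext a b
            rw [Matrix.sub_apply, Matrix.mul_apply, Matrix.mul_apply, Fin.sum_univ_one,
              Fin.sum_univ_one, Subsingleton.elim a 0, Subsingleton.elim b 0, mul_comm, sub_self]
            rfl
          exact (h4 _ _).symm
      show I (A * B - B * A) ∈ 𝔤
      rw [h3]
      exact h2
    exact h1 (PO.perf hJ hX)
  obtain ⟨σ, hσ⟩ := (h𝔤 (I X)).1 hmem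
  have h1 : Tendsto (fun k : ℕ => ((ℓ : ℚ_[ℓ]) ^ k)⁻¹ • (ρ (σ k) - 1)) atTop (𝓝 X) := hσ false
  have h2 : Tendsto (fun k : ℕ => ((ℓ : ℚ_[ℓ]) ^ k)⁻¹ •
      (χ (σ k) • (1 : Matrix (Fin 1) (Fin 1) ℚ_[ℓ]) - 1)) atTop (𝓝 0) := hσ true
  have h3 : Tendsto (fun k : ℕ => ((ℓ : ℚ_[ℓ]) ^ k)⁻¹ * (χ (σ k) - 1)) atTop (𝓝 0) := by
    have h4 := tendsto_pi_nhds.1 (tendsto_pi_nhds.1 h2 0) 0
    refine h4.congr fun k => ?_
    simp
  have hpow : Tendsto (fun k : ℕ => (ℓ : ℚ_[ℓ]) ^ k) atTop (𝓝 0) := by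
    refine tendsto_pow_atTop_nhds_zero_of_norm_lt_one ?_
    exact Padic.norm_p_lt_one
  have hne : (ℓ : ℚ_[ℓ]) ≠ 0 := by exact_mod_cast hℓ.out.ne_zero
  have h5 : Tendsto (fun k : ℕ => χ (σ k)) atTop (𝓝 1) := by
    have h6 := (hpow.mul h3).add_const 1
    rw [zero_mul, zero_add] at h6
    refine h6.congr fun k => ?_
    rw [← mul_assoc, mul_inv_cancel₀ (pow_ne_zero k hne), one_mul, sub_add_cancel]
  refine ⟨σ, ?_⟩
  have h7 : Tendsto (fun k : ℕ => χ (σ k) • (((ℓ : ℚ_[ℓ]) ^ k)⁻¹ • (ρ (σ k) - 1)) +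
      (((ℓ : ℚ_[ℓ]) ^ k)⁻¹ * (χ (σ k) - 1)) • (1 : Matrix (Fin N) (Fin N) ℚ_[ℓ])) atTop
      (𝓝 ((1 : ℚ_[ℓ]) • X + (0 : ℚ_[ℓ]) • (1 : Matrix (Fin N) (Fin N) ℚ_[ℓ]))) :=
    (h5.smul h1).add (h3.smul tendsto_const_nhds)
  rw [one_smul, zero_smul, add_zero] at h7
  refine h7.congr fun k => ?_
  rw [hρ', smul_comm, mul_smul, ← smul_add, smul_sub, sub_smul, one_smul]
  congr 1
  abel

end

end Pool.Agent.V5helper94.MT
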